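import Pool.Agent.Y177.Tor.Twist

/-! General automorphisms of order `p` of products of a torus and a vector space. -/

set_option autoImplicit false
set_option linter.unusedSectionVars false

universe u

open MvPolynomial Pool.Agent.H920R2 AlgebraicGeometry CategoryTheory

namespace Pool.Agent.Y177.Tor

variable {k : Type u} [Field k] {B : Type u} [CommRing B] [IsDomain B] [Algebra k B] {r m : ℕ}
    {χ : (Fin r → ℤ) → B} {ℓ : (Fin m → k) →ₗ[k] B} {p : ℕ}
variable [hp : Fact p.Prime] [CharP k p] [Algebra.FiniteType k B]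

/-- The shape of an automorphism. -/
lemma exists_s (T : TV k B χ ℓ) (σ : B ≃ₐ[k] B) (hσ : ∀ b, σ^[p] b = b)
    (hχ : ∀ a, ∃ c : k, c ≠ 0 ∧ ∃ b, σ (χ a) = algebraMap k B c * χ b) :
    ∃ (s : Module.End ℤ (Fin r → ℤ)) (c : (Fin r → ℤ) → k), s ^ p = 1 ∧
      (∀ a, σ (χ a) = algebraMap k B (c a) * χ (s a)) ∧ c 0 = 1 ∧
      (∀ a b, c (a + b) = c a * c b) ∧ ∀ a, ∏ i ∈ Finset.range p, c ((s ^ i) a) = 1 := by
  choose c hc s0 hs0 using hχ
  have h0 : s0 0 = 0 ∧ c 0 = 1 := by
    apply T.chi_inj (hc 0)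
    rw [← hs0, T.zero, map_one, map_one, mul_one]
  have hadd : ∀ a b, s0 (a + b) = s0 a + s0 b ∧ c (a + b) = c a * c b := by
    intro a b
    apply T.chi_inj (hc _)
    rw [← hs0, T.add, map_mul, hs0, hs0, T.add, map_mul]
    ring
  let s1 : (Fin r → ℤ) →+ (Fin r → ℤ) :=
    { toFun := s0, map_zero' := h0.1, map_add' := fun a b => (hadd a b).1 }
  let s : Module.End ℤ (Fin r → ℤ) := s1.toIntLinearMap
  have hs : ∀ a, σ (χ a) = algebraMap k B (c a) * χ (s a) := hs0
  have hit : ∀ (n : ℕ) (a : Fin r → ℤ), σ^[n] (χ a) =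
      algebraMap k B (∏ i ∈ Finset.range n, c ((s ^ i) a)) * χ ((s ^ n) a) := by
    intro n
    induction n with
    | zero => intro a; simp
    | succ n ih =>
      intro a
      rw [Function.iterate_succ_apply', ih, map_mul, AlgEquiv.commutes, hs,
        Finset.prod_range_succ, map_mul, pow_succ', Module.End.mul_apply]
      ring
  have hp1 : ∀ a, (s ^ p) a = a ∧ ∏ i ∈ Finset.range p, c ((s ^ i) a) = 1 := by
    intro a
    have h1 := hit p a
    rw [hσ] at h1
    have h2 : algebraMap k B 1 * χ a =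
        algebraMap k B (∏ i ∈ Finset.range p, c ((s ^ i) a)) * χ ((s ^ p) a) := by
      rw [← h1, map_one, one_mul]
    obtain ⟨h3, h4⟩ := T.chi_inj one_ne_zero h2
    exact ⟨h3.symm, h4.symm⟩
  refine ⟨s, c, LinearMap.ext fun a => (hp1 a).1, hs, h0.2, fun a b => (hadd a b).2,
    fun a => (hp1 a).2⟩

/-- The scalars form a coboundary. -/
lemma exists_psi [PerfectRing k p] (s : Module.End ℤ (Fin r → ℤ)) (hs : s ^ p = 1)
    (c : (Fin r → ℤ) → k) (h0 : c 0 = 1) (ha : ∀ a b, c (a + b) = c a * c b)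
    (hc : ∀ a, ∏ i ∈ Finset.range p, c ((s ^ i) a) = 1) :
    ∃ ψ : (Fin r → ℤ) → k, ψ 0 = 1 ∧ (∀ a b, ψ (a + b) = ψ a * ψ b) ∧
      ∀ a, ψ (s a) = ψ a * c a := by
  refine ⟨fun a => (frobeniusEquiv k p).symm (∏ i ∈ Finset.range p, c ((s ^ i) a) ^ i),
    ?_, ?_, ?_⟩
  · simp [h0]
  · intro a b
    simp only [map_add, ha, mul_pow, Finset.prod_mul_distrib, map_mul]
  · intro a
    apply (frobeniusEquiv k p).injective
    rw [map_mul, RingEquiv.apply_symm_apply, RingEquiv.apply_symm_apply, frobeniusEquiv_apply,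
      frobenius_def]
    have h1 : ∀ i : ℕ, (s ^ i) (s a) = (s ^ (i + 1)) a := fun i => by
      rw [pow_succ]; rfl
    have h2 : (∏ i ∈ Finset.range p, c ((s ^ i) (s a)) ^ i) *
        (∏ i ∈ Finset.range p, c ((s ^ i) (s a))) =
        (∏ i ∈ Finset.range p, c ((s ^ i) a) ^ i) * c a ^ p := by
      rw [← Finset.prod_mul_distrib]
      have h3 : ∀ i : ℕ, c ((s ^ i) (s a)) ^ i * c ((s ^ i) (s a)) =
          c ((s ^ (i + 1)) a) ^ (i + 1) := fun i => by rw [← pow_succ, h1]
      simp only [h3]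
      have h4 := Finset.prod_range_succ' (fun i => c ((s ^ i) a) ^ i) p
      rw [pow_zero (c ((s ^ 0) a)), mul_one] at h4
      rw [← h4, Finset.prod_range_succ, hs, Module.End.one_apply]
    rw [hc, mul_one] at h2
    exact h2

lemma exists_A (T : TV k B χ ℓ) (σ : B ≃ₐ[k] B) (hσ : ∀ b, σ^[p] b = b)
    (hℓ : ∀ v, ∃ u t, σ (ℓ v) = ℓ u + algebraMap k B t) :
    ∃ (N : Module.End k (Fin m → k)) (τ : (Fin m → k) →ₗ[k] k), N ^ p = 0 ∧
      ∀ v, σ (ℓ v) = ℓ v + ℓ (N v) + algebraMap k B (τ v) := by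
  choose A0 t0 h0 using hℓ
  have hadd : ∀ u v, A0 (u + v) = A0 u + A0 v ∧ t0 (u + v) = t0 u + t0 v := by
    intro u v
    apply T.ell_inj
    rw [← h0, map_add ℓ u v, map_add σ, h0, h0, map_add, map_add]
    ring
  have hsmul : ∀ (c : k) v, A0 (c • v) = c • A0 v ∧ t0 (c • v) = c * t0 v := by
    intro c v
    apply T.ell_inj
    rw [← h0, map_smul ℓ c v, map_smul σ, h0, map_smul, map_mul, smul_add, Algebra.smul_def,
      Algebra.smul_def]
  let A : Module.End k (Fin m → k) :=
    { toFun := A0, map_add' := fun u v => (hadd u v).1, map_smul' := fun c v => (hsmul c v).1 }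
  let τ : (Fin m → k) →ₗ[k] k :=
    { toFun := t0, map_add' := fun u v => (hadd u v).2, map_smul' := fun c v => (hsmul c v).2 }
  have hA : ∀ v, σ (ℓ v) = ℓ (A v) + algebraMap k B (τ v) := h0
  have hit : ∀ (n : ℕ) (v : Fin m → k), ∃ t, σ^[n] (ℓ v) = ℓ ((A ^ n) v) + algebraMap k B t := by
    intro n
    induction n with
    | zero => intro v; exact ⟨0, by simp⟩
    | succ n ih =>
      intro v
      obtain ⟨t, ht⟩ := ih v
      refine ⟨τ ((A ^ n) v) + t, ?_⟩
      rw [Function.iterate_succ_apply', ht, map_add, AlgEquiv.commutes, hA, pow_succ',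
        Module.End.mul_apply, map_add]
      ring
  have hAp : A ^ p = 1 := by
    refine LinearMap.ext fun v => ?_
    obtain ⟨t, ht⟩ := hit p v
    rw [hσ] at ht
    have h1 : ℓ v + algebraMap k B 0 = ℓ ((A ^ p) v) + algebraMap k B t := by
      rw [map_zero, add_zero]; exact ht
    exact (T.ell_inj h1).1.symm
  refine ⟨A - 1, τ, ?_, ?_⟩
  · have this : CharP (Module.End k (Fin m → k)) p ∨ Subsingleton (Fin m → k) := by
      rcases subsingleton_or_nontrivial (Fin m → k) with h1 | h1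
      · exact Or.inr h1
      · left
        exact charP_of_injective_algebraMap (algebraMap k (Module.End k (Fin m → k))).injective p
    rcases this with h1 | h1
    · rw [sub_pow_char_of_commute p (Commute.one_right A), hAp, one_pow, sub_self]
    · exact LinearMap.ext fun v => Subsingleton.elim _ _
  · intro v
    rw [hA, ← map_add]
    congr 2
    rw [LinearMap.sub_apply, Module.End.one_apply]
    abel

theorem hasResolution_gen [PerfectRing k p] (T : TV k B χ ℓ) (σ : B ≃ₐ[k] B)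
    (hσ : ∀ b, σ^[p] b = b)
    (hχ : ∀ a, ∃ c : k, c ≠ 0 ∧ ∃ b, σ (χ a) = algebraMap k B c * χ b)
    (hℓ : ∀ v, ∃ u t, σ (ℓ v) = ℓ u + algebraMap k B t) :
    HasResolution (X := Spec (CommRingCat.of (fixedAlg σ)))
      (Spec.map (CommRingCat.ofHom (algebraMap k (fixedAlg σ)))) := by
  obtain ⟨s, c, hs, hsχ, h0, ha, hc⟩ := exists_s T σ hσ hχ
  obtain ⟨ψ, hψ0, hψa, hψs⟩ := exists_psi s hs c h0 ha hc
  obtain ⟨N, τ, hN, hNτ⟩ := exists_A T σ hσ hℓ
  by_cases hker : LinearMap.ker N ≤ LinearMap.ker τ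
  · obtain ⟨g, hg⟩ := N.rangeRestrict.exists_rightInverse_of_surjective
      (LinearMap.range_rangeRestrict N)
    obtain ⟨φ, hφ⟩ := LinearMap.exists_extend (τ.comp g)
    have hφN : ∀ v, φ (N v) = τ v := by
      intro v
      have h1 := DFunLike.congr_fun hφ (N.rangeRestrict v)
      rw [LinearMap.comp_apply, LinearMap.comp_apply] at h1
      have h2 : N (g (N.rangeRestrict v)) = N v := by
        have h3 := DFunLike.congr_fun hg (N.rangeRestrict v)
        exact congrArg Subtype.val h3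
      have h3 : g (N.rangeRestrict v) - v ∈ LinearMap.ker τ := by
        apply hker
        rw [LinearMap.mem_ker, map_sub, h2, sub_self]
      rw [LinearMap.mem_ker, map_sub, sub_eq_zero] at h3
      rw [← h3, ← h1]
      rfl
    refine hasResolution_lin (T.twist ψ hψ0 hψa φ) σ hσ s hs ?_ N hN ?_
    · intro a
      rw [map_mul, AlgEquiv.commutes, hsχ, hψs, map_mul]
      ring
    · intro v
      simp only [LinearMap.add_apply, LinearMap.comp_apply, Algebra.linearMap_apply, map_add,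
        AlgEquiv.commutes, hNτ, hφN]
      ring
  · rw [SetLike.not_le_iff_exists] at hker
    obtain ⟨v, hv, hv'⟩ := hker
    rw [LinearMap.mem_ker] at hv hv'
    have hsm : Algebra.Smooth k B := by
      obtain ⟨lam, w, E, n, hA⟩ := exists_adapted hs
      have hE : (E : k) ≠ 0 := fun h => hA.hE ((CharP.cast_eq_zero_iff k p E).1 h)
      exact T.smooth hE hA.sum hA.dual
    refine hasResolution_free hsm σ hσ fun P hP => ⟨ℓ v, ?_⟩
    rw [hNτ, hv, map_zero, add_zero, add_sub_cancel_left]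
    intro h
    exact hP.ne_top (P.eq_top_of_isUnit_mem h ((IsUnit.mk0 _ hv').map _))

end Pool.Agent.Y177.Tor
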