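import Pool.Agent.Y177.Tor.Gen

/-! The coordinate ring of the product of a torus and an affine space. -/

set_option autoImplicit false
set_option linter.unusedSectionVars false

universe u

open MvPolynomial Pool.Agent.H920R2 AlgebraicGeometry CategoryTheory

namespace Pool.Agent.Y177.Tor

/-- The coordinate ring of `𝔾_m ^ r × 𝔸 ^ m`. -/
abbrev CR (k : Type u) [Field k] (r m : ℕ) : Type u :=
  MvPolynomial (Fin m) (AddMonoidAlgebra k (Fin r → ℤ))

variable (k : Type u) [Field k] (r m : ℕ)

/-- The characters. -/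
noncomputable def chr (a : Fin r → ℤ) : CR k r m := C (AddMonoidAlgebra.single a 1)

/-- The linear forms. -/
noncomputable def lin : (Fin m → k) →ₗ[k] CR k r m where
  toFun v := ∑ i, v i • (X i : CR k r m)
  map_add' u v := by simp [add_smul, Finset.sum_add_distrib]
  map_smul' c v := by simp [mul_smul, Finset.smul_sum]

lemma lin_single (i : Fin m) : lin k r m (Pi.single i 1) = X i := by
  classical
  change ∑ j, (Pi.single i (1 : k) : Fin m → k) j • (X j : CR k r m) = X i
  rw [Finset.sum_eq_single i]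
  · simp
  · intro j _ hj
    simp [Pi.single_eq_of_ne hj]
  · simp

lemma lin_apply (v : Fin m → k) : lin k r m v = ∑ i, v i • (X i : CR k r m) := rfl

theorem tv_CR : TV k (CR k r m) (chr k r m) (lin k r m) where
  zero := by
    change C (AddMonoidAlgebra.single 0 1) = 1
    rw [← AddMonoidAlgebra.one_def, map_one]
  add a b := by
    change C _ = C _ * C _
    rw [← map_mul, AddMonoidAlgebra.single_mul_single, one_mul]
  uniq D _ _ g g' h1 h2 := by
    have h3 : ∀ c : AddMonoidAlgebra k (Fin r → ℤ), g (C c) = g' (C c) := by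
      have h4 : g.comp (IsScalarTower.toAlgHom k (AddMonoidAlgebra k (Fin r → ℤ)) (CR k r m)) =
          g'.comp (IsScalarTower.toAlgHom k (AddMonoidAlgebra k (Fin r → ℤ)) (CR k r m)) := by
        apply AddMonoidAlgebra.algHom_ext
        · intro a
          exact h1 a
        · apply AlgHom.ext
          intro c
          have h5 : ∀ (f : k →ₐ[k] D), f c = algebraMap k D c := fun f => f.commutes c
          rw [h5, h5]
      intro c
      exact DFunLike.congr_fun h4 c
    have h5 : ∀ i, g (X i) = g' (X i) := fun i => by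
      have := h2 (Pi.single i 1)
      rwa [lin_single] at this
    apply AlgHom.ext
    intro f
    induction f using MvPolynomial.induction_on with
    | C c => exact h3 c
    | add p q hp hq => rw [map_add, map_add, hp, hq]
    | mul_X p i hp => rw [map_mul, map_mul, hp, h5]
  ex D _ _ Y h hY0 hYa := by
    let Y' : Multiplicative (Fin r → ℤ) →* D :=
      { toFun := fun a => Y a.toAdd, map_one' := hY0, map_mul' := fun a b => hYa _ _ }
    let g0 : AddMonoidAlgebra k (Fin r → ℤ) →ₐ[k] D := AddMonoidAlgebra.lift k D _ Y'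
    have hg0 : ∀ a, g0 (AddMonoidAlgebra.single a 1) = Y a := by
      intro a
      have := AddMonoidAlgebra.lift_single (R := k) (A := D) Y' a 1
      rw [this, one_smul]
      rfl
    let g : CR k r m →+* D := eval₂Hom g0.toRingHom (fun i => h (Pi.single i 1))
    have hgC : ∀ c, g (C c) = g0 c := fun c => eval₂Hom_C _ _ c
    have hgX : ∀ i, g (X i) = h (Pi.single i 1) := fun i => eval₂Hom_X' _ _ i
    let G : CR k r m →ₐ[k] D :=
      { toRingHom := g
        commutes' := fun c => by
          change g (algebraMap k (CR k r m) c) = _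
          rw [IsScalarTower.algebraMap_apply k (AddMonoidAlgebra k (Fin r → ℤ)) (CR k r m)]
          rw [MvPolynomial.algebraMap_eq, hgC, AlgHom.commutes] }
    refine ⟨G, fun a => ?_, fun v => ?_⟩
    · change g (C _) = _
      rw [hgC, hg0]
    · rw [lin_apply, map_sum]
      have h1 : v = ∑ i, v i • (Pi.single i 1 : Fin m → k) := by
        funext j
        rw [Finset.sum_apply, Finset.sum_eq_single j]
        · simp
        · intro i _ hij
          simp [Pi.single_eq_of_ne (Ne.symm hij)]
        · simp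
      conv_rhs => rw [h1, map_sum]
      refine Finset.sum_congr rfl fun i _ => ?_
      rw [map_smul, map_smul]
      congr 1
      exact hgX i

variable {k r m}

/-- The units of the ring of Laurent polynomials are the monomials. -/
lemma unit_single {u v : AddMonoidAlgebra k (Fin r → ℤ)} (h : u * v = 1) :
    ∃ (c : k) (a : Fin r → ℤ), c ≠ 0 ∧ u = AddMonoidAlgebra.single a c := by
  classical
  have hu0 : u ≠ 0 := by rintro rfl; rw [zero_mul] at h; exact zero_ne_one h
  have hv0 : v ≠ 0 := by rintro rfl; rw [mul_zero] at h; exact zero_ne_one h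
  have hu1 : u.coeff.support.Nonempty := by
    rw [Finsupp.support_nonempty_iff]
    intro h1
    exact hu0 (AddMonoidAlgebra.coeff_eq_zero.1 h1)
  have hv1 : v.coeff.support.Nonempty := by
    rw [Finsupp.support_nonempty_iff]
    intro h1
    exact hv0 (AddMonoidAlgebra.coeff_eq_zero.1 h1)
  have key : ¬ 1 < u.coeff.support.card * v.coeff.support.card := by
    intro h1
    obtain ⟨p1, hp1, p2, hp2, hne, hU1, hU2⟩ := TwoUniqueSums.uniqueAdd_of_one_lt_card h1
    rw [Finset.mem_product] at hp1 hp2
    have h2 := AddMonoidAlgebra.coeff_mul_add_of_uniqueAdd hU1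
    have h3 := AddMonoidAlgebra.coeff_mul_add_of_uniqueAdd hU2
    have h4 : (1 : AddMonoidAlgebra k (Fin r → ℤ)).coeff (p1.1 + p1.2) ≠ 0 := by
      rw [← h, h2]
      exact mul_ne_zero (Finsupp.mem_support_iff.1 hp1.1) (Finsupp.mem_support_iff.1 hp1.2)
    have h5 : (1 : AddMonoidAlgebra k (Fin r → ℤ)).coeff (p2.1 + p2.2) ≠ 0 := by
      rw [← h, h3]
      exact mul_ne_zero (Finsupp.mem_support_iff.1 hp2.1) (Finsupp.mem_support_iff.1 hp2.2)
    rw [AddMonoidAlgebra.one_def, AddMonoidAlgebra.coeff_single, Finsupp.single_apply] at h4 h5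
    have h6 : (0 : Fin r → ℤ) = p1.1 + p1.2 := by
      by_contra hcon
      exact h4 (if_neg hcon)
    have h7 : (0 : Fin r → ℤ) = p2.1 + p2.2 := by
      by_contra hcon
      exact h5 (if_neg hcon)
    obtain ⟨h8, h9⟩ := hU1 hp2.1 hp2.2 (by rw [← h6, ← h7])
    exact hne (Prod.ext h8.symm h9.symm)
  have hcard : u.coeff.support.card = 1 := by
    have h1 := hu1.card_pos
    have h2 := hv1.card_pos
    push Not at key
    nlinarith
  obtain ⟨a, c, hc, h1⟩ := Finsupp.card_support_eq_one'.1 hcard
  refine ⟨c, a, hc, ?_⟩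
  apply AddMonoidAlgebra.coeff_injective
  rw [h1, AddMonoidAlgebra.coeff_single]

lemma unit_CR {u : CR k r m} (h : IsUnit u) :
    ∃ (c : k) (a : Fin r → ℤ), c ≠ 0 ∧ u = algebraMap k (CR k r m) c * chr k r m a := by
  obtain ⟨w, hw, rfl⟩ := (MvPolynomial.isUnit_iff_eq_C_of_isReduced).1 h
  obtain ⟨v, hv⟩ := hw.exists_right_inv
  obtain ⟨c, a, hc, rfl⟩ := unit_single hv
  refine ⟨c, a, hc, ?_⟩
  rw [IsScalarTower.algebraMap_apply k (AddMonoidAlgebra k (Fin r → ℤ)) (CR k r m)]
  change _ = C _ * C _
  rw [← map_mul, ← Algebra.smul_def, AddMonoidAlgebra.smul_single, smul_eq_mul, mul_one]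

/-- Transport along an isomorphism. -/
theorem TV.congr {k : Type u} [Field k] {B B' : Type u} [CommRing B] [Algebra k B] [CommRing B']
    [Algebra k B'] {r m : ℕ} {χ : (Fin r → ℤ) → B} {ℓ : (Fin m → k) →ₗ[k] B} (T : TV k B χ ℓ)
    (e : B ≃ₐ[k] B') : TV k B' (fun a => e (χ a)) (e.toLinearMap.comp ℓ) where
  zero := by rw [T.zero, map_one]
  add a b := by rw [T.add, map_mul]
  uniq C _ _ g g' h1 h2 := by
    have h3 : g.comp (e : B →ₐ[k] B') = g'.comp (e : B →ₐ[k] B') := T.uniq C _ _ h1 h2
    apply AlgHom.ext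
    intro b
    have h4 := DFunLike.congr_fun h3 (e.symm b)
    simpa using h4
  ex C _ _ Y h hY0 hYa := by
    obtain ⟨g, h1, h2⟩ := T.ex C Y h hY0 hYa
    refine ⟨g.comp (e.symm : B' →ₐ[k] B), ?_, ?_⟩
    · intro a
      simp [h1]
    · intro v
      simp [h2]

end Pool.Agent.Y177.Tor
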