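import Mathlib

/-! Filtrations generated by elements with weights. -/

set_option autoImplicit false

universe u

namespace Pool.Agent.Y177.Tor

variable {B : Type u} [CommRing B] (G : B → ℕ → Prop)

/-- The ideal generated by the products of elements `b`, `G b w`, of total weight at least `d`. -/
def Gf (d : ℕ) : Ideal B := Ideal.span {y | ∃ t : List (B × ℕ), (∀ q ∈ t, G q.1 q.2) ∧
  d ≤ (t.map Prod.snd).sum ∧ y = (t.map Prod.fst).prod}

lemma prod_mem {t : List (B × ℕ)} (h : ∀ q ∈ t, G q.1 q.2) {d : ℕ}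
    (hd : d ≤ (t.map Prod.snd).sum) : (t.map Prod.fst).prod ∈ Gf G d :=
  Ideal.subset_span ⟨t, h, hd, rfl⟩

lemma Gf_zero : Gf G 0 = ⊤ := by
  rw [Ideal.eq_top_iff_one]
  exact prod_mem G (t := []) (by simp) (by simp)

lemma Gf_anti (a b : ℕ) (h : a ≤ b) : Gf G b ≤ Gf G a := by
  unfold Gf
  rw [Ideal.span_le]
  rintro _ ⟨t, ht, hd, rfl⟩
  exact prod_mem G ht (h.trans hd)

lemma Gf_mul (a b : ℕ) : Gf G a * Gf G b ≤ Gf G (a + b) := by
  unfold Gf
  rw [Ideal.span_mul_span', Ideal.span_le]
  rintro _ ⟨_, ⟨t, ht, hd, rfl⟩, _, ⟨t', ht', hd', rfl⟩, rfl⟩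
  refine Ideal.subset_span ⟨t ++ t', ?_, ?_, ?_⟩
  · intro q hq
    rcases List.mem_append.1 hq with h | h
    · exact ht q h
    · exact ht' q h
  · rw [List.map_append, List.sum_append]
    exact add_le_add hd hd'
  · rw [List.map_append, List.prod_append]

lemma mul_mem_Gf {a b : ℕ} {x y : B} (hx : x ∈ Gf G a) (hy : y ∈ Gf G b) :
    x * y ∈ Gf G (a + b) := Gf_mul G a b (Ideal.mul_mem_mul hx hy)

lemma pow_mem_Gf {a : ℕ} {x : B} (hx : x ∈ Gf G a) (n : ℕ) : x ^ n ∈ Gf G (n * a) := by
  induction n with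
  | zero => rw [zero_mul, Gf_zero]; trivial
  | succ n ih =>
    rw [pow_succ, Nat.succ_mul]
    exact mul_mem_Gf G ih hx

lemma gen_mem {b : B} {w : ℕ} (h : G b w) : b ∈ Gf G w := by
  have h1 := prod_mem G (t := [(b, w)]) (by simpa using h) (d := w) (by simp)
  simpa using h1

/-- The filtration is the smallest one which contains the generators. -/
lemma Gf_le {W : ℕ → Ideal B} (h0 : W 0 = ⊤) (ha : ∀ a b, a ≤ b → W b ≤ W a)
    (hm : ∀ a b, W a * W b ≤ W (a + b)) (hg : ∀ b w, G b w → b ∈ W w) (d : ℕ) :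
    Gf G d ≤ W d := by
  unfold Gf
  rw [Ideal.span_le]
  rintro _ ⟨t, ht, hd, rfl⟩
  refine ha _ _ hd ?_
  clear hd
  induction t with
  | nil =>
    simp only [List.map_nil, List.sum_nil, List.prod_nil, SetLike.mem_coe]
    rw [h0]; trivial
  | cons q t ih =>
    rw [List.map_cons, List.map_cons, List.sum_cons, List.prod_cons]
    exact hm _ _ (Ideal.mul_mem_mul (hg _ _ (ht q (by simp)))
      (ih fun q' hq' => ht q' (by simp [hq'])))

section sigma

variable {F : Type*} [EquivLike F B B] [RingEquivClass F B B] (σ : F)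

lemma sigma_raise (h1 : ∀ b, σ b - b ∈ Gf G 1) (h2 : ∀ b w, G b w → σ b - b ∈ Gf G (w + 1))
    (d : ℕ) (a : B) (ha : a ∈ Gf G d) : σ a - a ∈ Gf G (d + 1) := by
  have key : ∀ t : List (B × ℕ), (∀ q ∈ t, G q.1 q.2) →
      σ (t.map Prod.fst).prod - (t.map Prod.fst).prod ∈ Gf G ((t.map Prod.snd).sum + 1) := by
    intro t
    induction t with
    | nil => intro _; simp
    | cons q t ih =>
      intro ht
      have h3 := ih fun q' hq' => ht q' (by simp [hq'])
      have h4 := h2 _ _ (ht q (by simp))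
      have h5 := prod_mem G (t := t) (fun q' hq' => ht q' (by simp [hq'])) le_rfl
      have h6 : σ (t.map Prod.fst).prod ∈ Gf G (t.map Prod.snd).sum := by
        have : σ (t.map Prod.fst).prod = (t.map Prod.fst).prod +
          (σ (t.map Prod.fst).prod - (t.map Prod.fst).prod) := by ring
        rw [this]
        exact Ideal.add_mem _ h5 (Gf_anti G _ _ (by omega) h3)
      rw [List.map_cons, List.map_cons, List.sum_cons, List.prod_cons, map_mul]
      have h7 : σ q.1 * σ (t.map Prod.fst).prod - q.1 * (t.map Prod.fst).prod =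
          (σ q.1 - q.1) * σ (t.map Prod.fst).prod +
          q.1 * (σ (t.map Prod.fst).prod - (t.map Prod.fst).prod) := by ring
      rw [h7]
      refine Ideal.add_mem _ ?_ ?_
      · exact Gf_anti G _ _ (by omega) (mul_mem_Gf G h4 h6)
      · exact Gf_anti G _ _ (by omega) (mul_mem_Gf G (gen_mem G (ht q (by simp))) h3)
  have key2 : a ∈ Gf G d ∧ σ a - a ∈ Gf G (d + 1) := by
    unfold Gf at ha
    induction ha using Submodule.span_induction with
    | mem y hy =>
      obtain ⟨t, ht, hd, rfl⟩ := hy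
      exact ⟨prod_mem G ht hd, Gf_anti G _ _ (by omega) (key t ht)⟩
    | zero => simp
    | add x y _ _ hx hy =>
      refine ⟨Ideal.add_mem _ hx.1 hy.1, ?_⟩
      have : σ (x + y) - (x + y) = (σ x - x) + (σ y - y) := by rw [map_add]; ring
      rw [this]
      exact Ideal.add_mem _ hx.2 hy.2
    | smul r x _ hx =>
      refine ⟨Ideal.mul_mem_left _ _ hx.1, ?_⟩
      rw [smul_eq_mul, map_mul]
      have h8 : σ r * σ x - r * x = (σ r - r) * (x + (σ x - x)) + r * (σ x - x) := by ring
      rw [h8]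
      refine Ideal.add_mem _ ?_ (Ideal.mul_mem_left _ _ hx.2)
      rw [add_comm d 1]
      exact mul_mem_Gf G (h1 r) (Ideal.add_mem _ hx.1 (Gf_anti G _ _ (by omega) hx.2))
  exact key2.2

/-- The ideal of the leading forms. -/
def ldI (m : ℕ) : Ideal B := Gf G (m + 1) ⊔
  Ideal.span {y | ∃ e, ∃ c ∈ Gf G e, ∃ b ∈ Gf G (m - (e + 1)), y = b * (σ c - c)}

lemma le_ldI (m : ℕ) : Gf G (m + 1) ≤ ldI G σ m := le_sup_left

lemma ldI_gen {m e : ℕ} {c b : B} (hc : c ∈ Gf G e) (hb : b ∈ Gf G (m - (e + 1))) :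
    b * (σ c - c) ∈ ldI G σ m :=
  (le_sup_right : _ ≤ ldI G σ m) (Ideal.subset_span ⟨e, c, hc, b, hb, rfl⟩)

lemma ldI_mul {m e : ℕ} {x y : B} (hx : x ∈ ldI G σ m) (hy : y ∈ Gf G e) :
    x * y ∈ ldI G σ (m + e) := by
  unfold ldI at hx
  obtain ⟨a, ha, b, hb, rfl⟩ := Submodule.mem_sup.1 hx
  rw [add_mul]
  refine Ideal.add_mem _ ?_ ?_
  · refine le_ldI G σ _ ?_
    exact Gf_anti G _ _ (by omega) (mul_mem_Gf G ha hy)
  · induction hb using Submodule.span_induction with
    | mem z hz =>
      obtain ⟨e', c, hc, b, hb, rfl⟩ := hz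
      have h1 : b * (σ c - c) * y = (b * y) * (σ c - c) := by ring
      rw [h1]
      exact ldI_gen G σ hc (Gf_anti G _ _ (by omega) (mul_mem_Gf G hb hy))
    | zero => rw [zero_mul]; exact Ideal.zero_mem _
    | add x z _ _ h1 h2 =>
      rw [add_mul]
      exact Ideal.add_mem _ (h1 (Ideal.add_mem _ (Ideal.mem_sup_left ha) (Ideal.mem_sup_right
        (by assumption)))) (h2 (Ideal.add_mem _ (Ideal.mem_sup_left ha) (Ideal.mem_sup_right
        (by assumption))))
    | smul r z _ h1 =>
      rw [smul_eq_mul, mul_assoc]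
      exact Ideal.mul_mem_left _ _ (h1 (Ideal.add_mem _ (Ideal.mem_sup_left ha)
        (Ideal.mem_sup_right (by assumption))))

/-- It suffices to check the condition on the leading forms for the generators. -/
lemma lead_of_gens (h : ∀ b w, G b w → 1 ≤ w → ∃ N : ℕ, b ^ N ∈ ldI G σ (N * w)) (d : ℕ)
    (hd : 1 ≤ d) (a : B) (ha : a ∈ Gf G d) : ∃ N : ℕ, a ^ N ∈ ldI G σ (N * d) := by
  have key : a ∈ Gf G d ∧ ∃ N : ℕ, a ^ N ∈ ldI G σ (N * d) := by
    unfold Gf at ha
    induction ha using Submodule.span_induction with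
    | mem y hy =>
      obtain ⟨t, ht, hdt, rfl⟩ := hy
      refine ⟨prod_mem G ht hdt, ?_⟩
      rcases Nat.lt_or_ge d (t.map Prod.snd).sum with h1 | h1
      · refine ⟨1, le_ldI G σ _ ?_⟩
        rw [pow_one, one_mul]
        exact prod_mem G ht h1
      · have hds : (t.map Prod.snd).sum = d := le_antisymm h1 hdt
        obtain ⟨q, hq, hq1⟩ : ∃ q ∈ t, 1 ≤ q.2 := by
          by_contra hcon
          push Not at hcon
          have h2 : (t.map Prod.snd).sum = 0 := by
            apply List.sum_eq_zero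
            intro x hx
            obtain ⟨q, hq, rfl⟩ := List.mem_map.1 hx
            have := hcon q hq
            omega
          omega
        obtain ⟨t1, t2, rfl⟩ := List.append_of_mem hq
        obtain ⟨N, hN⟩ := h q.1 q.2 (ht q hq) hq1
        refine ⟨N, ?_⟩
        have h3 : ((t1 ++ q :: t2).map Prod.fst).prod =
            q.1 * ((t1 ++ t2).map Prod.fst).prod := by
          simp only [List.map_append, List.map_cons, List.prod_append, List.prod_cons]
          ring
        have h4 : ((t1 ++ q :: t2).map Prod.snd).sum =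
            q.2 + ((t1 ++ t2).map Prod.snd).sum := by
          simp only [List.map_append, List.map_cons, List.sum_append, List.sum_cons]
          ring
        have h5 : ((t1 ++ t2).map Prod.fst).prod ∈ Gf G ((t1 ++ t2).map Prod.snd).sum := by
          refine prod_mem G (fun q' hq' => ht q' ?_) le_rfl
          rcases List.mem_append.1 hq' with h6 | h6
          · exact List.mem_append_left _ h6
          · exact List.mem_append_right _ (List.mem_cons_of_mem _ h6)
        rw [h3, mul_pow, ← hds, h4, mul_add]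
        exact ldI_mul G σ hN (pow_mem_Gf G h5 N)
    | zero =>
      refine ⟨Ideal.zero_mem _, 1, ?_⟩
      rw [pow_one]
      exact Ideal.zero_mem _
    | add x y _ _ hx hy =>
      obtain ⟨hx0, N, hN⟩ := hx
      obtain ⟨hy0, M, hM⟩ := hy
      refine ⟨Ideal.add_mem _ hx0 hy0, N + M, ?_⟩
      rw [add_pow]
      refine Ideal.sum_mem _ fun i hi => ?_
      rw [Finset.mem_range] at hi
      refine Ideal.mul_mem_right _ _ ?_
      rcases Nat.lt_or_ge i N with h1 | h1
      · have h2 : x ^ i * y ^ (N + M - i) = y ^ M * (x ^ i * y ^ (N - i)) := by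
          have : y ^ (N + M - i) = y ^ M * y ^ (N - i) := by
            rw [← pow_add]; congr 1; omega
          rw [this]; ring
        have h3 : (N + M) * d = M * d + (i * d + (N - i) * d) := by
          have : N + M = M + (i + (N - i)) := by omega
          rw [this]; ring
        rw [h2, h3]
        exact ldI_mul G σ hM (mul_mem_Gf G (pow_mem_Gf G hx0 i) (pow_mem_Gf G hy0 _))
      · have h2 : x ^ i * y ^ (N + M - i) = x ^ N * (x ^ (i - N) * y ^ (N + M - i)) := by
          have : x ^ i = x ^ N * x ^ (i - N) := by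
            rw [← pow_add]; congr 1; omega
          rw [this]; ring
        have h3 : (N + M) * d = N * d + ((i - N) * d + (N + M - i) * d) := by
          have : N + M = N + ((i - N) + (N + M - i)) := by omega
          rw [← add_mul, ← add_mul]
          congr 1
        rw [h2, h3]
        exact ldI_mul G σ hN (mul_mem_Gf G (pow_mem_Gf G hx0 _) (pow_mem_Gf G hy0 _))
    | smul r x _ hx =>
      obtain ⟨hx0, N, hN⟩ := hx
      refine ⟨Ideal.mul_mem_left _ _ hx0, N, ?_⟩
      rw [smul_eq_mul, mul_pow]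
      exact Ideal.mul_mem_left _ _ hN
  exact key.2

end sigma

end Pool.Agent.Y177.Tor
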