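import Mathlib

/-! Modules with an endomorphism `s`, `s ^ p = 1`. -/

set_option autoImplicit false

universe u

namespace Pool.Agent.Y177.Tor

open Polynomial

/-- `(x - 1) ^ (p - 1) = N (x) + p h (x)`, `h (1) = - 1`. -/
lemma exists_poly (p : ℕ) [hp : Fact p.Prime] : ∃ g : ℤ[X],
    (X - 1 : ℤ[X]) ^ (p - 1) = (∑ i ∈ Finset.range p, X ^ i) +
      (p : ℤ[X]) * (-1 + (X - 1) * g) := by
  have hp2 : 2 ≤ p := hp.out.two_le
  have h1 : ((X - 1 : ℤ[X]) ^ (p - 1) - ∑ i ∈ Finset.range p, X ^ i).map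
      (Int.castRingHom (ZMod p)) = 0 := by
    rw [Polynomial.map_sub, Polynomial.map_pow, Polynomial.map_sub, Polynomial.map_X,
      Polynomial.map_one, Polynomial.map_sum]
    simp only [Polynomial.map_pow, Polynomial.map_X]
    have h2 : (X - 1 : (ZMod p)[X]) ^ (p - 1) * (X - 1) =
        (∑ i ∈ Finset.range p, X ^ i) * (X - 1) := by
      rw [geom_sum_mul, ← pow_succ, Nat.sub_add_cancel (by omega), sub_pow_char, one_pow]
    have h3 : (X - 1 : (ZMod p)[X]) ≠ 0 := by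
      have := Polynomial.X_sub_C_ne_zero (1 : ZMod p)
      simpa using this
    rw [mul_right_cancel₀ h3 h2, sub_self]
  have h4 : C (p : ℤ) ∣ (X - 1 : ℤ[X]) ^ (p - 1) - ∑ i ∈ Finset.range p, X ^ i := by
    rw [C_dvd_iff_dvd_coeff]
    intro i
    have h5 := congrArg (fun q => Polynomial.coeff q i) h1
    simp only [Polynomial.coeff_map, Polynomial.coeff_zero] at h5
    exact (ZMod.intCast_zmod_eq_zero_iff_dvd _ _).1 h5
  obtain ⟨h, hh⟩ := h4
  have h6 : (h + 1).IsRoot 1 := by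
    have h7 := congrArg (Polynomial.eval 1) hh
    simp only [eval_sub, eval_pow, eval_X, eval_one, sub_self, eval_mul, eval_C,
      eval_finsetSum, one_pow, Finset.sum_const, Finset.card_range] at h7
    rw [zero_pow (by omega)] at h7
    have h8 : (p : ℤ) * (h.eval 1 + 1) = 0 := by
      rw [mul_add, ← h7]; simp
    have h9 : (p : ℤ) ≠ 0 := by
      have := hp.out.ne_zero
      exact_mod_cast this
    rcases mul_eq_zero.1 h8 with h10 | h10
    · exact absurd h10 h9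
    · rw [Polynomial.IsRoot, eval_add, eval_one, h10]
  rw [← dvd_iff_isRoot] at h6
  obtain ⟨g, hg⟩ := h6
  refine ⟨g, ?_⟩
  have h11 : -1 + (X - 1) * g = h := by
    have : (X - 1 : ℤ[X]) = X - C 1 := by simp
    rw [this, ← hg]; ring
  rw [h11]
  have h12 : (p : ℤ[X]) = C (p : ℤ) := by simp
  rw [h12, ← hh]; ring

variable {M : Type*} [AddCommGroup M] (s : Module.End ℤ M) (p : ℕ)

/-- The norm of `s`. -/
noncomputable def nrm : Module.End ℤ M := ∑ i ∈ Finset.range p, s ^ i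

/-- The submodules `(s - 1) ^ j ker N`. -/
noncomputable def KJ (j : ℕ) : Submodule ℤ M := (LinearMap.ker (nrm s p)).map ((s - 1) ^ j)

lemma mem_KJ {j : ℕ} {μ : M} : μ ∈ KJ s p j ↔ ∃ κ, nrm s p κ = 0 ∧ ((s - 1) ^ j) κ = μ := by
  simp [KJ, Submodule.mem_map]

lemma nrm_comm : Commute (nrm s p) s := by
  unfold nrm
  exact Commute.sum_left _ _ _ fun i _ => (Commute.refl s).pow_left i

lemma nrm_comm' : Commute (nrm s p) (s - 1) := (nrm_comm s p).sub_right (Commute.one_right _)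

variable {s p}

lemma nrm_pi (hs : s ^ p = 1) (μ : M) : nrm s p ((s - 1) μ) = 0 := by
  have h1 : nrm s p * (s - 1) = 0 := by rw [nrm, geom_sum_mul, hs, sub_self]
  exact DFunLike.congr_fun h1 μ

lemma KJ_zero {μ : M} : μ ∈ KJ s p 0 ↔ nrm s p μ = 0 := by
  rw [mem_KJ]; simp

lemma pi_mem_zero (hs : s ^ p = 1) (μ : M) : (s - 1) μ ∈ KJ s p 0 := by
  rw [KJ_zero]; exact nrm_pi hs μ

lemma pi_mem_succ {j : ℕ} {μ : M} (h : μ ∈ KJ s p j) : (s - 1) μ ∈ KJ s p (j + 1) := by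
  obtain ⟨κ, h1, rfl⟩ := (mem_KJ s p).1 h
  exact (mem_KJ s p).2 ⟨κ, h1, by rw [pow_succ']; rfl⟩

lemma exists_of_succ {j : ℕ} {μ : M} (h : μ ∈ KJ s p (j + 1)) :
    ∃ ν ∈ KJ s p j, μ = (s - 1) ν := by
  obtain ⟨κ, h1, rfl⟩ := (mem_KJ s p).1 h
  exact ⟨((s - 1) ^ j) κ, (mem_KJ s p).2 ⟨κ, h1, rfl⟩, by rw [pow_succ']; rfl⟩

lemma KJ_succ_le (hs : s ^ p = 1) (j : ℕ) : KJ s p (j + 1) ≤ KJ s p j := by
  intro μ h
  obtain ⟨κ, h1, rfl⟩ := (mem_KJ s p).1 h
  refine (mem_KJ s p).2 ⟨(s - 1) κ, nrm_pi hs κ, ?_⟩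
  rw [pow_succ]; rfl

lemma KJ_anti (hs : s ^ p = 1) : Antitone (KJ s p) := antitone_nat_of_succ_le (KJ_succ_le hs)

lemma KJ_sat [IsAddTorsionFree M] {n : ℤ} (hn : n ≠ 0) {μ : M} (h : n • μ ∈ KJ s p 0) :
    μ ∈ KJ s p 0 := by
  rw [KJ_zero] at h ⊢
  rw [map_zsmul] at h
  exact (smul_eq_zero.1 h).resolve_left hn

/-- On the kernel of the norm, `(s - 1) ^ (p - 1) = p (- 1 + (s - 1) g (s))`. -/
lemma pi_pow [hp : Fact p.Prime] : ∃ g : Module.End ℤ M, Commute g s ∧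
    ∀ μ, nrm s p μ = 0 → ((s - 1) ^ (p - 1)) μ = (p : ℤ) • (-μ + (s - 1) (g μ)) := by
  obtain ⟨g, hg⟩ := exists_poly p
  refine ⟨aeval s g, ?_, ?_⟩
  · have h1 : Commute (aeval s g) (aeval s (X : ℤ[X])) := by
      rw [Commute, SemiconjBy, ← map_mul, ← map_mul, mul_comm]
    rwa [aeval_X] at h1
  · intro μ hμ
    have h2 := congrArg (aeval s) hg
    simp only [map_pow, map_sub, aeval_X, map_one, map_add, map_sum, map_mul, map_natCast,
      map_neg] at h2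
    have h3 := DFunLike.congr_fun h2 μ
    rw [h3]
    change (∑ i ∈ Finset.range p, s ^ i) μ + _ = _
    have h4 : (∑ i ∈ Finset.range p, s ^ i) μ = 0 := hμ
    rw [h4, zero_add]
    have h5 : (p : Module.End ℤ M) = (p : ℤ) • 1 := by simp
    rw [h5, smul_mul_assoc, one_mul]
    rfl

lemma KJ_p_sub_one (hs : s ^ p = 1) [hp : Fact p.Prime] {μ : M} (h : μ ∈ KJ s p (p - 1)) :
    ∃ ν ∈ KJ s p 0, μ = (p : ℤ) • ν := by
  obtain ⟨g, hg, hg2⟩ := pi_pow (s := s) (p := p)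
  obtain ⟨κ, h1, rfl⟩ := (mem_KJ s p).1 h
  refine ⟨-κ + (s - 1) (g κ), ?_, hg2 κ h1⟩
  refine Submodule.add_mem _ (Submodule.neg_mem _ ?_) (pi_mem_zero hs _)
  exact KJ_zero.2 h1

lemma p_smul_mem [hp : Fact p.Prime] {μ : M} (h : μ ∈ KJ s p 0) :
    (p : ℤ) • μ ∈ KJ s p (p - 1) := by
  obtain ⟨g, hg, hg2⟩ := pi_pow (s := s) (p := p)
  rw [KJ_zero] at h
  have hgN : Commute g (nrm s p) := by
    unfold nrm
    exact Commute.sum_right _ _ _ fun i _ => hg.pow_right i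
  have hgπ : Commute g (s - 1) := hg.sub_right (Commute.one_right _)
  have h1 : (p : ℤ) • μ = -(((s - 1) ^ (p - 1)) μ) + ((s - 1) * g) ((p : ℤ) • μ) := by
    rw [hg2 μ h]
    simp only [smul_add, smul_neg, map_smul, Module.End.mul_apply]
    abel
  have key : ∀ t : ℕ, ∃ κ, nrm s p κ = 0 ∧
      (p : ℤ) • μ = ((s - 1) ^ (p - 1)) κ + (((s - 1) * g) ^ t) ((p : ℤ) • μ) := by
    intro t
    induction t with
    | zero => exact ⟨0, by simp, by simp⟩
    | succ t ih =>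
      obtain ⟨κ, hκ, h2⟩ := ih
      refine ⟨κ - (((s - 1) * g) ^ t) μ, ?_, ?_⟩
      · rw [map_sub, hκ, zero_sub, neg_eq_zero]
        have h3 : Commute (nrm s p) (((s - 1) * g) ^ t) :=
          ((nrm_comm' s p).mul_right hgN.symm).pow_right t
        have h4 := DFunLike.congr_fun h3.eq μ
        rw [Module.End.mul_apply, Module.End.mul_apply, h, map_zero] at h4
        exact h4
      · have h5 : (((s - 1) * g) ^ t) ((p : ℤ) • μ) =
            -((s - 1) ^ (p - 1)) ((((s - 1) * g) ^ t) μ) +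
              (((s - 1) * g) ^ (t + 1)) ((p : ℤ) • μ) := by
          conv_lhs => rw [h1]
          rw [map_add, map_neg]
          congr 2
          have h6 : Commute (((s - 1) * g) ^ t) ((s - 1) ^ (p - 1)) :=
            (((Commute.refl (s - 1)).mul_left hgπ).pow_left t).pow_right (p - 1)
          exact DFunLike.congr_fun h6.eq μ
        rw [map_sub]
        conv_lhs => rw [h2]
        rw [h5]
        abel
  obtain ⟨κ, hκ, h2⟩ := key (p - 1)
  rw [mem_KJ]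
  refine ⟨κ + (g ^ (p - 1)) ((p : ℤ) • μ), ?_, ?_⟩
  · rw [map_add, hκ, zero_add]
    have h3 : Commute (nrm s p) (g ^ (p - 1)) := hgN.symm.pow_right _
    have h4 := DFunLike.congr_fun h3.eq ((p : ℤ) • μ)
    have h5 : nrm s p ((p : ℤ) • μ) = 0 := by rw [map_smul, h, smul_zero]
    rw [Module.End.mul_apply, Module.End.mul_apply, h5, map_zero] at h4
    exact h4
  · rw [map_add]
    conv_rhs => rw [h2]
    congr 1
    rw [hgπ.symm.mul_pow]
    rfl

lemma exists_pi_of_p [hp : Fact p.Prime] {μ : M} (h : μ ∈ KJ s p 0) :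
    ∃ ν ∈ KJ s p (p - 2), (p : ℤ) • μ = (s - 1) ν := by
  have h1 := p_smul_mem h
  have hp2 : 2 ≤ p := hp.out.two_le
  have h2 : p - 1 = (p - 2) + 1 := by omega
  rw [h2] at h1
  exact exists_of_succ h1

lemma exists_p_of_pi (hs : s ^ p = 1) [hp : Fact p.Prime] {μ : M} (h : μ ∈ KJ s p (p - 2)) :
    ∃ ν ∈ KJ s p 0, (s - 1) μ = (p : ℤ) • ν := by
  have h1 := pi_mem_succ h
  have hp2 : 2 ≤ p := hp.out.two_le
  have h2 : p - 1 = (p - 2) + 1 := by omega
  rw [← h2] at h1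
  exact KJ_p_sub_one hs h1

end Pool.Agent.Y177.Tor
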