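import Pool.Agent.Y177.Tor.Flag
import Pool.Agent.Y177.Tor.Lat1

/-! Adapted coordinates on a lattice with an automorphism of order `p`. -/

set_option autoImplicit false

universe u

namespace Pool.Agent.Y177.Tor

variable {r : ℕ} {p : ℕ}

/-- Reduction mod `p`. -/
def red (r p : ℕ) : (Fin r → ℤ) →+ (Fin r → ZMod p) where
  toFun μ := fun a => (μ a : ZMod p)
  map_zero' := by funext a; simp
  map_add' μ ν := by funext a; simp

lemma red_eq_zero {μ : Fin r → ℤ} : red r p μ = 0 ↔ ∃ ν, μ = (p : ℤ) • ν := by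
  constructor
  · intro h
    have h1 : ∀ a, ∃ n, μ a = (p : ℤ) * n := fun a => by
      have h2 := congrFun h a
      exact (ZMod.intCast_zmod_eq_zero_iff_dvd _ _).1 h2
    choose ν hν using h1
    exact ⟨ν, by funext a; simp [hν a]⟩
  · rintro ⟨ν, rfl⟩
    funext a
    simp [red]

/-- The filtration mod `p`. -/
noncomputable def Wf (s : Module.End ℤ (Fin r → ℤ)) (p : ℕ) : ℕ → Submodule (ZMod p) (Fin r → ZMod p)
  | 0 => ⊤
  | (d + 1) => AddSubgroup.toZModSubmodule p ((KJ s p d).toAddSubgroup.map (red r p))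

variable {s : Module.End ℤ (Fin r → ℤ)}

lemma mem_Wf_succ {d : ℕ} {v : Fin r → ZMod p} :
    v ∈ Wf s p (d + 1) ↔ ∃ μ ∈ KJ s p d, red r p μ = v := by
  change v ∈ AddSubgroup.toZModSubmodule p ((KJ s p d).toAddSubgroup.map (red r p)) ↔ _
  rw [AddSubgroup.mem_toZModSubmodule, AddSubgroup.mem_map]
  rfl

lemma Wf_anti (hs : s ^ p = 1) : Antitone (Wf s p) := by
  refine antitone_nat_of_succ_le ?_
  intro d
  cases d with
  | zero => exact le_top
  | succ d =>
    intro v hv
    rw [mem_Wf_succ] at hv ⊢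
    obtain ⟨μ, h1, rfl⟩ := hv
    exact ⟨μ, KJ_succ_le hs d h1, rfl⟩

lemma Wf_p (hs : s ^ p = 1) [hp : Fact p.Prime] : Wf s p p = ⊥ := by
  have h1 : p = (p - 1) + 1 := by have := hp.out.two_le; omega
  have h2 : Wf s p ((p - 1) + 1) = ⊥ := by
    rw [eq_bot_iff]
    intro v hv
    rw [mem_Wf_succ] at hv
    obtain ⟨μ, h3, rfl⟩ := hv
    obtain ⟨ν, -, rfl⟩ := KJ_p_sub_one hs h3
    rw [Submodule.mem_bot, red_eq_zero]
    exact ⟨ν, rfl⟩
  rw [← h1] at h2
  exact h2

/-- Adapted coordinates. -/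
structure Adapted (s : Module.End ℤ (Fin r → ℤ)) (p : ℕ) (lam : Fin r → (Fin r → ℤ))
    (w : Fin r → ℕ) (E : ℕ) (n : Fin r → (Fin r → ℤ) →ₗ[ℤ] ℤ) : Prop where
  hE : ¬ p ∣ E
  sum : ∀ μ, (E : ℤ) • μ = ∑ i, n i μ • lam i
  dual : ∀ i j, n i (lam j) = if i = j then (E : ℤ) else 0
  w_lt : ∀ i, w i < p
  mem : ∀ i, 1 ≤ w i → lam i ∈ KJ s p (w i - 1)
  dvd : ∀ j, ∀ μ ∈ KJ s p j, ∀ i, w i ≤ j → (p : ℤ) ∣ n i μ
  zero : ∀ μ ∈ KJ s p 0, ∀ i, w i = 0 → n i μ = 0

theorem exists_adapted (hs : s ^ p = 1) [hp : Fact p.Prime] : ∃ lam w E n,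
    Adapted s p lam w E n := by
  classical
  obtain ⟨b0, w0, hb0, hw0, hsp0⟩ := exists_flag (Wf s p) (Wf_anti hs) rfl p (Wf_p hs)
  have hfr : Module.finrank (ZMod p) (Fin r → ZMod p) = r := by simp
  let e : Fin (Module.finrank (ZMod p) (Fin r → ZMod p)) ≃ Fin r := finCongr hfr
  let b := b0.reindex e
  let w : Fin r → ℕ := fun i => w0 (e.symm i)
  have hb : ∀ i, b i ∈ Wf s p (w i) := fun i => by
    change b0.reindex e i ∈ _
    rw [Module.Basis.reindex_apply]; exact hb0 _
  have hsp : ∀ d, Wf s p d ≤ Submodule.span (ZMod p) (b '' {i | d ≤ w i}) := by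
    intro d
    refine (hsp0 d).trans (Submodule.span_mono ?_)
    rintro _ ⟨i, hi, rfl⟩
    refine ⟨e i, ?_, ?_⟩
    · change d ≤ w0 (e.symm (e i))
      rwa [Equiv.symm_apply_apply]
    · change b0.reindex e (e i) = _
      rw [Module.Basis.reindex_apply, Equiv.symm_apply_apply]
  have hlam : ∀ i, ∃ l : Fin r → ℤ, red r p l = b i ∧ (1 ≤ w i → l ∈ KJ s p (w i - 1)) := by
    intro i
    rcases Nat.eq_zero_or_pos (w i) with h1 | h1
    · have h2 : ∀ a, ∃ n : ℤ, (n : ZMod p) = b i a := fun a => ZMod.intCast_surjective _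
      choose l hl using h2
      exact ⟨l, funext hl, fun h => by omega⟩
    · have h2 := hb i
      have h3 : w i = (w i - 1) + 1 := by omega
      rw [h3, mem_Wf_succ] at h2
      obtain ⟨l, h4, h5⟩ := h2
      exact ⟨l, h5, fun _ => h4⟩
  choose lam hlam1 hlam2 using hlam
  let P : Matrix (Fin r) (Fin r) ℤ := Matrix.of lam
  have hP : ¬ (p : ℤ) ∣ P.det := by
    intro h1
    rw [← ZMod.intCast_zmod_eq_zero_iff_dvd] at h1
    have h2 : (P.map (Int.castRingHom (ZMod p))).det = 0 := by
      have h3 := (Int.castRingHom (ZMod p)).map_det P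
      rw [RingHom.mapMatrix_apply] at h3
      rw [← h3]; exact h1
    have h4 : P.map (Int.castRingHom (ZMod p)) =
        ((Pi.basisFun (ZMod p) (Fin r)).toMatrix b).transpose := by
      ext i a
      have := congrFun (hlam1 i) a
      simp only [Matrix.map_apply, Matrix.transpose_apply, Module.Basis.toMatrix_apply,
        Pi.basisFun_repr]
      exact this
    rw [h4, Matrix.det_transpose] at h2
    have h5 : ((Pi.basisFun (ZMod p) (Fin r)).toMatrix b).det *
        (b.toMatrix (Pi.basisFun (ZMod p) (Fin r))).det = 1 := by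
      rw [← Matrix.det_mul, Module.Basis.toMatrix_mul_toMatrix_flip, Matrix.det_one]
    rw [h2, zero_mul] at h5
    exact zero_ne_one h5
  let n : Fin r → (Fin r → ℤ) →ₗ[ℤ] ℤ := fun i =>
    { toFun := fun μ => P.det * ∑ a, μ a * P.adjugate a i
      map_add' := fun μ ν => by
        simp only [Pi.add_apply, add_mul, Finset.sum_add_distrib, mul_add]
      map_smul' := fun c μ => by
        simp only [Pi.smul_apply, smul_eq_mul, RingHom.id_apply, Finset.mul_sum]
        refine Finset.sum_congr rfl fun a _ => by ring }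
  have hn : ∀ i μ, n i μ = P.det * ∑ a, μ a * P.adjugate a i := fun i μ => rfl
  have hE : ((P.det.natAbs ^ 2 : ℕ) : ℤ) = P.det * P.det := by
    rw [Nat.cast_pow, Int.natAbs_pow_two, sq]
  have hsum : ∀ μ, ((P.det.natAbs ^ 2 : ℕ) : ℤ) • μ = ∑ i, n i μ • lam i := by
    intro μ
    funext c
    rw [hE, Pi.smul_apply, Finset.sum_apply, smul_eq_mul]
    simp only [Pi.smul_apply, hn, smul_eq_mul]
    have h1 : ∀ i, P.det * (∑ a, μ a * P.adjugate a i) * lam i c =
        P.det * ∑ a, μ a * (P.adjugate a i * P i c) := by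
      intro i
      rw [mul_assoc, Finset.sum_mul]
      congr 1
      refine Finset.sum_congr rfl fun a _ => ?_
      change _ * _ * P i c = _
      ring
    simp only [h1]
    rw [← Finset.mul_sum, mul_assoc]
    congr 1
    rw [Finset.sum_comm]
    have h2 : ∀ a, ∑ i, μ a * (P.adjugate a i * P i c) = μ a * (P.adjugate * P) a c := by
      intro a
      rw [Matrix.mul_apply, Finset.mul_sum]
    simp only [h2]
    rw [Matrix.adjugate_mul]
    simp [Matrix.one_apply, mul_comm]
  have hdual : ∀ i j, n i (lam j) = if i = j then ((P.det.natAbs ^ 2 : ℕ) : ℤ) else 0 := by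
    intro i j
    rw [hn]
    have h1 : ∑ a, lam j a * P.adjugate a i = (P * P.adjugate) j i := by
      rw [Matrix.mul_apply]; rfl
    rw [h1, Matrix.mul_adjugate, hE]
    rcases eq_or_ne i j with rfl | h2
    · simp
    · simp [h2, Ne.symm h2]
  have hEp : ¬ p ∣ P.det.natAbs ^ 2 := by
    intro h1
    have h2 := hp.out.dvd_of_dvd_pow h1
    exact hP (Int.natCast_dvd.2 h2)
  -- coefficients of elements whose reductions lie in the spans
  have hcoef : ∀ (c : Fin r → ℤ) (d : ℕ), red r p (∑ i, c i • lam i) ∈ Wf s p d →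
      ∀ i, ¬ d ≤ w i → (p : ℤ) ∣ c i := by
    intro c d h1 i hi
    have h2 := hsp d h1
    rw [Module.Basis.mem_span_image] at h2
    have h3 : b.repr (red r p (∑ i, c i • lam i)) i = (c i : ZMod p) := by
      have h4 : red r p (∑ i, c i • lam i) = ∑ i, (c i : ZMod p) • b i := by
        rw [map_sum]
        refine Finset.sum_congr rfl fun i _ => ?_
        rw [map_zsmul, hlam1, Int.cast_smul_eq_zsmul]
      rw [h4, Module.Basis.repr_sum_self]
    rw [← ZMod.intCast_zmod_eq_zero_iff_dvd, ← h3]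
    by_contra h5
    exact hi (h2 (Finsupp.mem_support_iff.2 h5))
  refine ⟨lam, w, P.det.natAbs ^ 2, n, hEp, hsum, hdual, fun i => hw0 _, hlam2, ?_, ?_⟩
  · intro j μ hμ i hi
    refine hcoef (fun i => n i μ) (j + 1) ?_ i (by omega)
    rw [← hsum, mem_Wf_succ]
    exact ⟨_, (KJ s p j).smul_mem _ hμ, rfl⟩
  · have key : ∀ (e : ℕ) (c : Fin r → ℤ), (∀ i, w i ≠ 0 → c i = 0) →
        ∑ i, c i • lam i ∈ KJ s p 0 → ∀ i, (p : ℤ) ^ e ∣ c i := by
      intro e
      induction e with
      | zero => intro c _ _ i; simp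
      | succ e ih =>
        intro c hc hm i
        have h1 : ∀ i, (p : ℤ) ∣ c i := by
          intro i
          by_cases h2 : w i = 0
          · refine hcoef c 1 ?_ i (by omega)
            rw [mem_Wf_succ]
            exact ⟨_, hm, rfl⟩
          · rw [hc i h2]; exact dvd_zero _
        choose c' hc' using h1
        have hp0 : (p : ℤ) ≠ 0 := by exact_mod_cast hp.out.ne_zero
        have h3 : ∑ i, c i • lam i = (p : ℤ) • ∑ i, c' i • lam i := by
          rw [Finset.smul_sum]
          refine Finset.sum_congr rfl fun i _ => ?_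
          rw [hc' i, mul_smul]
        rw [h3] at hm
        have h4 := ih c' (fun i hi => by
          have h5 := hc i hi
          rw [hc' i] at h5
          exact (mul_eq_zero.1 h5).resolve_left hp0) (KJ_sat hp0 hm) i
        rw [hc' i, pow_succ']
        exact mul_dvd_mul_left _ h4
    intro μ hμ i hi
    have h1 : ∑ i, (if w i = 0 then n i μ else 0) • lam i ∈ KJ s p 0 := by
      have h2 : ∑ i, (if w i = 0 then n i μ else 0) • lam i =
          ((P.det.natAbs ^ 2 : ℕ) : ℤ) • μ - ∑ i, (if w i = 0 then 0 else n i μ) • lam i := by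
        rw [hsum, ← Finset.sum_sub_distrib]
        refine Finset.sum_congr rfl fun i _ => ?_
        split_ifs <;> simp
      rw [h2]
      refine Submodule.sub_mem _ ((KJ s p 0).smul_mem _ hμ) (Submodule.sum_mem _ fun i _ => ?_)
      split_ifs with h3
      · simp
      · exact (KJ s p 0).smul_mem _ (KJ_anti hs (Nat.zero_le _) (hlam2 i (by omega)))
    have h2 : ∀ e : ℕ, (p : ℤ) ^ e ∣ n i μ := by
      intro e
      have h3 := key e (fun i => if w i = 0 then n i μ else 0) (fun i hi => if_neg hi) h1 i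
      simpa [hi] using h3
    by_contra h3
    have h4 : (n i μ).natAbs < p ^ (n i μ).natAbs := Nat.lt_pow_self hp.out.one_lt
    have h5 := h2 (n i μ).natAbs
    have h6 : p ^ (n i μ).natAbs ∣ (n i μ).natAbs := by
      have := Int.natAbs_dvd_natAbs.2 h5
      rwa [Int.natAbs_pow, Int.natAbs_natCast] at this
    have h7 := Nat.le_of_dvd (Int.natAbs_pos.2 h3) h6
    omega

end Pool.Agent.Y177.Tor
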