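import Mathlib

/-! Coordinate rings of products of a torus and a vector space; étale coordinates. -/

set_option autoImplicit false

universe u

open MvPolynomial

namespace Pool.Agent.Y177.Tor

/-- The ring `B` is the coordinate ring of the product of the torus with character group `ℤ ^ r`
and the vector space with linear forms `k ^ m`. -/
structure TV (k : Type u) [Field k] (B : Type u) [CommRing B] [Algebra k B] {r m : ℕ}
    (χ : (Fin r → ℤ) → B) (ℓ : (Fin m → k) →ₗ[k] B) : Prop where
  zero : χ 0 = 1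
  add : ∀ a b, χ (a + b) = χ a * χ b
  uniq : ∀ (C : Type u) [CommRing C] [Algebra k C] (g g' : B →ₐ[k] C),
    (∀ a, g (χ a) = g' (χ a)) → (∀ v, g (ℓ v) = g' (ℓ v)) → g = g'
  ex : ∀ (C : Type u) [CommRing C] [Algebra k C] (Y : (Fin r → ℤ) → C)
    (h : (Fin m → k) →ₗ[k] C), Y 0 = 1 → (∀ a b, Y (a + b) = Y a * Y b) →
    ∃ g : B →ₐ[k] C, (∀ a, g (χ a) = Y a) ∧ ∀ v, g (ℓ v) = h v

variable {k : Type u} [Field k] {B : Type u} [CommRing B] [Algebra k B] {r m : ℕ}
    {χ : (Fin r → ℤ) → B} {ℓ : (Fin m → k) →ₗ[k] B}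

lemma TV.mul_neg (T : TV k B χ ℓ) (a : Fin r → ℤ) : χ a * χ (-a) = 1 := by
  rw [← T.add, add_neg_cancel, T.zero]

/-- A multiplicative map. -/
lemma hom_neg {S : Type u} [CommRing S] {Y : (Fin r → ℤ) → S} (h0 : Y 0 = 1)
    (ha : ∀ a b, Y (a + b) = Y a * Y b) (a : Fin r → ℤ) : Y a * Y (-a) = 1 := by
  rw [← ha, add_neg_cancel, h0]

section lift

variable {S : Type u} [CommRing S] {I : Ideal S} (hI : I ^ 2 = ⊥)

include hI in
lemma mul_zero_of_mem {a b : S} (ha : a ∈ I) (hb : b ∈ I) : a * b = 0 := by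
  have h1 : a * b ∈ I ^ 2 := by rw [sq]; exact Ideal.mul_mem_mul ha hb
  rw [hI] at h1
  exact h1

include hI in
/-- Two multiplicative maps which agree modulo a square zero ideal and at the `lam i` agree. -/
lemma hom_unique {lam : Fin r → (Fin r → ℤ)} {E : ℕ} {n : Fin r → (Fin r → ℤ) →ₗ[ℤ] ℤ}
    (hE : IsUnit (E : S)) (hsum : ∀ μ, (E : ℤ) • μ = ∑ i, n i μ • lam i)
    {Y Y' : (Fin r → ℤ) → S} (h0 : Y 0 = 1) (ha : ∀ a b, Y (a + b) = Y a * Y b)
    (h0' : Y' 0 = 1) (ha' : ∀ a b, Y' (a + b) = Y' a * Y' b) (hm : ∀ a, Y a - Y' a ∈ I)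
    (hlam : ∀ i, Y (lam i) = Y' (lam i)) (a : Fin r → ℤ) : Y a = Y' a := by
  have hd : ∀ a, Y a * Y' (-a) - 1 ∈ I := fun a => by
    have h1 : Y a * Y' (-a) - 1 = (Y a - Y' a) * Y' (-a) := by
      rw [sub_mul, hom_neg h0' ha']
    rw [h1]
    exact Ideal.mul_mem_right _ _ (hm a)
  let D : (Fin r → ℤ) →+ S :=
    { toFun := fun a => Y a * Y' (-a) - 1
      map_zero' := by rw [neg_zero, h0, h0']; ring
      map_add' := fun a b => by
        have h1 := mul_zero_of_mem hI (hd a) (hd b)
        rw [neg_add, ha, ha']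
        linear_combination h1 }
  have h1 : ∀ i, D (lam i) = 0 := fun i => by
    change Y (lam i) * Y' (-(lam i)) - 1 = 0
    rw [hlam, hom_neg h0' ha', sub_self]
  have h2 : (E : ℤ) • D a = 0 := by
    rw [← map_zsmul, hsum, map_sum]
    refine Finset.sum_eq_zero fun i _ => ?_
    rw [map_zsmul, h1, smul_zero]
  have h3 : D a = 0 := by
    rw [zsmul_eq_mul, Int.cast_natCast] at h2
    exact (hE.mul_right_eq_zero).1 h2
  have h4 : Y a * Y' (-a) = 1 := sub_eq_zero.1 h3
  have h5 := hom_neg h0' ha' a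
  calc Y a = Y a * (Y' a * Y' (-a)) := by rw [h5, mul_one]
    _ = (Y a * Y' (-a)) * Y' a := by ring
    _ = Y' a := by rw [h4, one_mul]

include hI in
/-- Lifting of multiplicative maps. -/
lemma hom_lift {lam : Fin r → (Fin r → ℤ)} {E : ℕ} {n : Fin r → (Fin r → ℤ) →ₗ[ℤ] ℤ}
    (hE : IsUnit (E : S)) (hdual : ∀ i j, n i (lam j) = if i = j then (E : ℤ) else 0)
    {Z : (Fin r → ℤ) → S ⧸ I} (h0 : Z 0 = 1) (ha : ∀ a b, Z (a + b) = Z a * Z b)
    (c : Fin r → S) (hc : ∀ i, Z (lam i) = Ideal.Quotient.mk I (c i)) :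
    ∃ Y : (Fin r → ℤ) → S, Y 0 = 1 ∧ (∀ a b, Y (a + b) = Y a * Y b) ∧
      (∀ a, Ideal.Quotient.mk I (Y a) = Z a) ∧ ∀ i, Y (lam i) = c i := by
  classical
  have hlift : ∀ a : Fin r, ∃ x : Sˣ, Ideal.Quotient.mk I (x : S) = Z (Pi.single a 1) := by
    intro a
    obtain ⟨x, hx⟩ := Ideal.Quotient.mk_surjective (Z (Pi.single a 1))
    obtain ⟨y, hy⟩ := Ideal.Quotient.mk_surjective (Z (-Pi.single a 1))
    have h1 : x * y - 1 ∈ I := by
      rw [← Ideal.Quotient.eq_zero_iff_mem, map_sub, map_mul, hx, hy, map_one, ← ha,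
        add_neg_cancel, h0, sub_self]
    have h2 := mul_zero_of_mem hI h1 h1
    have h3 : x * (y * (2 - x * y)) = 1 := by linear_combination -h2
    exact ⟨⟨x, y * (2 - x * y), h3, by rw [mul_comm]; exact h3⟩, hx⟩
  choose x hx using hlift
  let Z' : Multiplicative (Fin r → ℤ) →* S ⧸ I :=
    { toFun := fun a => Z a.toAdd, map_one' := h0, map_mul' := fun a b => ha _ _ }
  let X0 : (Fin r → ℤ) → Sˣ := fun a => ∏ i, x i ^ a i
  have hX0 : X0 0 = 1 := by simp [X0]
  have hXa : ∀ a b, X0 (a + b) = X0 a * X0 b := fun a b => by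
    simp only [X0, Pi.add_apply, zpow_add, Finset.prod_mul_distrib]
  let ZU : Multiplicative (Fin r → ℤ) →* (S ⧸ I)ˣ := Z'.toHomUnits
  have hZU : ∀ a : Fin r → ℤ, ((ZU (Multiplicative.ofAdd a) : (S ⧸ I)ˣ) : S ⧸ I) = Z a :=
    fun a => rfl
  have hXm : ∀ a, Ideal.Quotient.mk I (X0 a : S) = Z a := by
    intro a
    have h1 : Units.map (Ideal.Quotient.mk I : S →* S ⧸ I) (X0 a) =
        ZU (Multiplicative.ofAdd a) := by
      have h2 : a = ∑ i, a i • (Pi.single i 1 : Fin r → ℤ) := by
        funext j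
        rw [Finset.sum_apply, Finset.sum_eq_single j]
        · simp
        · intro i _ hij
          simp [Pi.single_eq_of_ne (Ne.symm hij)]
        · simp
      have h3 : Multiplicative.ofAdd a =
          ∏ i, (Multiplicative.ofAdd (Pi.single i 1 : Fin r → ℤ)) ^ a i := by
        conv_lhs => rw [h2]
        rw [ofAdd_sum]
        rfl
      rw [h3, map_prod ZU]
      change Units.map (Ideal.Quotient.mk I : S →* S ⧸ I) (∏ i, x i ^ a i) = _
      rw [map_prod]
      refine Finset.prod_congr rfl fun i _ => ?_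
      rw [map_zpow, map_zpow]
      congr 1
      apply Units.ext
      rw [hZU]
      exact hx i
    have h2 := congrArg (fun y : (S ⧸ I)ˣ => (y : S ⧸ I)) h1
    exact h2
  let ε : Fin r → S := fun i => c i * (X0 (-lam i) : S) - 1
  have hε : ∀ i, ε i ∈ I := by
    intro i
    rw [← Ideal.Quotient.eq_zero_iff_mem]
    change Ideal.Quotient.mk I (c i * (X0 (-lam i) : S) - 1) = 0
    rw [map_sub, map_mul, ← hc, hXm, map_one, ← ha, add_neg_cancel, h0, sub_self]
  obtain ⟨e, he⟩ := hE
  let D : (Fin r → ℤ) →+ S :=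
    { toFun := fun a => ∑ i, ((e⁻¹ : Sˣ) : S) * (n i a : S) * ε i
      map_zero' := by simp
      map_add' := fun a b => by
        rw [← Finset.sum_add_distrib]
        refine Finset.sum_congr rfl fun i _ => ?_
        rw [map_add, Int.cast_add]; ring }
  have hD : ∀ a, D a ∈ I := fun a => by
    change ∑ i, ((e⁻¹ : Sˣ) : S) * (n i a : S) * ε i ∈ I
    exact Ideal.sum_mem _ fun i _ => Ideal.mul_mem_left _ _ (hε i)
  have hDlam : ∀ j, D (lam j) = ε j := by
    intro j
    change ∑ i, ((e⁻¹ : Sˣ) : S) * (n i (lam j) : S) * ε i = ε j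
    rw [Finset.sum_eq_single j]
    · rw [hdual, if_pos rfl, Int.cast_natCast, ← he, Units.inv_mul, one_mul]
    · intro i _ hij
      rw [hdual, if_neg hij, Int.cast_zero]; ring
    · simp
  refine ⟨fun a => (X0 a : S) * (1 + D a), ?_, ?_, ?_, ?_⟩
  · simp only [hX0, map_zero]; simp
  · intro a b
    simp only [hXa, map_add, Units.val_mul]
    have h1 := mul_zero_of_mem hI (hD a) (hD b)
    linear_combination -((X0 a : S) * (X0 b : S)) * h1
  · intro a
    rw [map_mul, map_add, map_one, Ideal.Quotient.eq_zero_iff_mem.2 (hD a), add_zero, mul_one,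
      hXm]
  · intro i
    simp only [hDlam]
    change (X0 (lam i) : S) * (1 + (c i * (X0 (-lam i) : S) - 1)) = c i
    have h1 : (X0 (lam i) : S) * (X0 (-lam i) : S) = 1 := by
      rw [← Units.val_mul, ← hXa, add_neg_cancel, hX0, Units.val_one]
    linear_combination c i * h1

end lift

/-- The coordinates. -/
noncomputable def crd (χ : (Fin r → ℤ) → B) (ℓ : (Fin m → k) →ₗ[k] B)
    (lam : Fin r → (Fin r → ℤ)) (c : Module.Basis (Fin m) k (Fin m → k)) : Fin r ⊕ Fin m → B :=
  Sum.elim (fun i => χ (lam i) - 1) (fun j => ℓ (c j))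

/-- The coordinates are étale. -/
theorem TV.etale (T : TV k B χ ℓ) [Algebra.FiniteType k B] {lam : Fin r → (Fin r → ℤ)} {E : ℕ}
    {n : Fin r → (Fin r → ℤ) →ₗ[ℤ] ℤ} (hE : (E : k) ≠ 0)
    (hsum : ∀ μ, (E : ℤ) • μ = ∑ i, n i μ • lam i)
    (hdual : ∀ i j, n i (lam j) = if i = j then (E : ℤ) else 0)
    (c : Module.Basis (Fin m) k (Fin m → k)) :
    ((aeval (crd χ ℓ lam c) : MvPolynomial (Fin r ⊕ Fin m) k →ₐ[k] B).toRingHom).Etale := by
  classical
  let P := MvPolynomial (Fin r ⊕ Fin m) k
  let _ : Algebra P B := (aeval (crd χ ℓ lam c) : P →ₐ[k] B).toRingHom.toAlgebra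
  have hPB : ∀ q : P, algebraMap P B q = aeval (crd χ ℓ lam c) q := fun q => rfl
  have _ : IsScalarTower k P B := IsScalarTower.of_algebraMap_eq fun r => by
    rw [hPB, MvPolynomial.algebraMap_eq, aeval_C]
  have hfp : Algebra.FinitePresentation P B := by
    have _ : Algebra.FiniteType P B := Algebra.FiniteType.of_restrictScalars_finiteType k P B
    exact Algebra.FinitePresentation.of_finiteType.1 inferInstance
  have hfe : Algebra.FormallyEtale P B := by
    rw [Algebra.FormallyEtale.iff_comp_bijective]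
    intro S _ _ I hI
    let _ : Algebra k S := ((algebraMap P S).comp (algebraMap k P)).toAlgebra
    have _ : IsScalarTower k P S := IsScalarTower.of_algebraMap_eq fun r => rfl
    have hES : IsUnit (E : S) := by
      have h1 := (IsUnit.mk0 (E : k) hE).map (algebraMap k S)
      rwa [map_natCast] at h1
    let d : (Fin r ⊕ Fin m) → S := fun i => algebraMap P S (X i)
    constructor
    · intro h h' hh
      have hmk : ∀ x, h x - h' x ∈ I := fun x => by
        rw [← Ideal.Quotient.eq_zero_iff_mem, map_sub, sub_eq_zero]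
        exact congrArg (fun φ : B →ₐ[P] S ⧸ I => φ x) hh
      have hX : ∀ (h : B →ₐ[P] S) (i : Fin r ⊕ Fin m), h (crd χ ℓ lam c i) = d i := by
        intro h i
        have h1 := h.commutes (X i)
        rw [hPB, aeval_X] at h1
        exact h1
      let hk : B →ₐ[k] S := h.restrictScalars k
      let hk' : B →ₐ[k] S := h'.restrictScalars k
      have h2 : hk = hk' := by
        refine T.uniq S _ _ ?_ ?_
        · refine fun a => hom_unique hI (Y := fun a => h (χ a)) (Y' := fun a => h' (χ a)) hES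
            hsum ?_ ?_ ?_ ?_ (fun a => hmk _) ?_ a
          · rw [T.zero, map_one]
          · intro a b; rw [T.add, map_mul]
          · rw [T.zero, map_one]
          · intro a b; rw [T.add, map_mul]
          · intro i
            have h3 := (hX h (Sum.inl i)).trans (hX h' (Sum.inl i)).symm
            change h (χ (lam i) - 1) = h' (χ (lam i) - 1) at h3
            rw [map_sub, map_sub, map_one, map_one] at h3
            exact sub_left_inj.1 h3
        · have h3 : hk.toLinearMap.comp ℓ = hk'.toLinearMap.comp ℓ := by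
            apply c.ext
            intro j
            exact (hX h (Sum.inr j)).trans (hX h' (Sum.inr j)).symm
          intro v
          exact congrArg (fun φ : (Fin m → k) →ₗ[k] S => φ v) h3
      apply AlgHom.ext
      intro x
      exact congrArg (fun φ : B →ₐ[k] S => φ x) h2
    · intro g
      have hgX : ∀ (i : Fin r ⊕ Fin m), g (crd χ ℓ lam c i) = Ideal.Quotient.mk I (d i) := by
        intro i
        have h1 := g.commutes (X i)
        rw [hPB, aeval_X] at h1
        exact h1
      have _ : IsScalarTower k P (S ⧸ I) := IsScalarTower.of_algebraMap_eq fun r => rfl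
      let gk : B →ₐ[k] S ⧸ I := g.restrictScalars k
      obtain ⟨Y, hY0, hYa, hYm, hYl⟩ := hom_lift hI hES hdual (Z := fun a => g (χ a))
        (by rw [T.zero, map_one]) (by intro a b; rw [T.add, map_mul])
        (fun i => d (Sum.inl i) + 1) (by
          intro i
          have h3 := hgX (Sum.inl i)
          change g (χ (lam i) - 1) = _ at h3
          rw [map_sub, map_one, sub_eq_iff_eq_add] at h3
          rw [h3, map_add, map_one])
      obtain ⟨H, hH1, hH2⟩ := T.ex S Y (c.constr k fun j => d (Sum.inr j)) hY0 hYa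
      have hHX : ∀ i, H (crd χ ℓ lam c i) = d i := by
        rintro (i | j)
        · change H (χ (lam i) - 1) = _
          rw [map_sub, map_one, hH1, hYl, add_sub_cancel_right]
        · change H (ℓ (c j)) = _
          rw [hH2, Module.Basis.constr_basis]
      have hHC : ∀ q : P, H (algebraMap P B q) = algebraMap P S q := by
        intro q
        rw [hPB]
        induction q using MvPolynomial.induction_on with
        | C r =>
          rw [aeval_C, AlgHom.commutes]
          rfl
        | add p q hp hq => rw [map_add, map_add, hp, hq, map_add]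
        | mul_X p i hp =>
          rw [map_mul, map_mul, hp, aeval_X, hHX, map_mul]
      refine ⟨{ toRingHom := H.toRingHom, commutes' := hHC }, ?_⟩
      have h3 : (Ideal.Quotient.mkₐ k I).comp H = gk := by
        refine T.uniq _ _ _ ?_ ?_
        · intro a
          rw [AlgHom.comp_apply, hH1]
          exact hYm a
        · have h4 : ((Ideal.Quotient.mkₐ k I).comp H).toLinearMap.comp ℓ =
              gk.toLinearMap.comp ℓ := by
            apply c.ext
            intro j
            change Ideal.Quotient.mk I (H (crd χ ℓ lam c (Sum.inr j))) =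
              g (crd χ ℓ lam c (Sum.inr j))
            rw [hHX, hgX]
          intro v
          exact congrArg (fun φ : (Fin m → k) →ₗ[k] S ⧸ I => φ v) h4
      apply AlgHom.ext
      intro y
      exact congrArg (fun φ : B →ₐ[k] S ⧸ I => φ y) h3
  have hE : Algebra.Etale P B := { formallyEtale := hfe, finitePresentation := hfp }
  exact hE

/-- The coordinates indexed by `Fin (r + m)`. -/
noncomputable def crd' (χ : (Fin r → ℤ) → B) (ℓ : (Fin m → k) →ₗ[k] B)
    (lam : Fin r → (Fin r → ℤ)) (c : Module.Basis (Fin m) k (Fin m → k)) : Fin (r + m) → B :=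
  fun i => crd χ ℓ lam c (finSumFinEquiv.symm i)

theorem TV.etale' (T : TV k B χ ℓ) [Algebra.FiniteType k B] {lam : Fin r → (Fin r → ℤ)} {E : ℕ}
    {n : Fin r → (Fin r → ℤ) →ₗ[ℤ] ℤ} (hE : (E : k) ≠ 0)
    (hsum : ∀ μ, (E : ℤ) • μ = ∑ i, n i μ • lam i)
    (hdual : ∀ i j, n i (lam j) = if i = j then (E : ℤ) else 0)
    (c : Module.Basis (Fin m) k (Fin m → k)) :
    ((aeval (crd' χ ℓ lam c) : MvPolynomial (Fin (r + m)) k →ₐ[k] B).toRingHom).Etale := by
  have h1 := T.etale hE hsum hdual c
  have h2 : (renameEquiv k (finSumFinEquiv (m := r) (n := m)).symm).toRingEquiv.toRingHom.Etale :=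
    RingHom.Etale.of_bijective
      (renameEquiv k (finSumFinEquiv (m := r) (n := m)).symm).bijective
  have h3 := RingHom.Etale.stableUnderComposition _ _ h2 h1
  have h4 : (aeval (crd' χ ℓ lam c) : MvPolynomial (Fin (r + m)) k →ₐ[k] B) =
      (aeval (crd χ ℓ lam c) : MvPolynomial (Fin r ⊕ Fin m) k →ₐ[k] B).comp
        (renameEquiv k (finSumFinEquiv (m := r) (n := m)).symm :
          MvPolynomial (Fin (r + m)) k →ₐ[k] MvPolynomial (Fin r ⊕ Fin m) k) := by
    apply MvPolynomial.algHom_ext
    intro i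
    simp [crd']
  rw [h4]
  exact h3

theorem TV.etale_loc (T : TV k B χ ℓ) [Algebra.FiniteType k B] {lam : Fin r → (Fin r → ℤ)}
    {E : ℕ} {n : Fin r → (Fin r → ℤ) →ₗ[ℤ] ℤ} (hE : (E : k) ≠ 0)
    (hsum : ∀ μ, (E : ℤ) • μ = ∑ i, n i μ • lam i)
    (hdual : ∀ i j, n i (lam j) = if i = j then (E : ℤ) else 0)
    (c : Module.Basis (Fin m) k (Fin m → k)) (f : B) :
    ((aeval (fun i => algebraMap B (Localization.Away f) (crd' χ ℓ lam c i)) :
        MvPolynomial (Fin (r + m)) k →ₐ[k] Localization.Away f) :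
        MvPolynomial (Fin (r + m)) k →+* Localization.Away f).Etale := by
  have h1 := T.etale' hE hsum hdual c
  have h2 : Algebra.Etale B (Localization.Away f) := Algebra.Etale.of_isLocalizationAway f
  have h3 : (algebraMap B (Localization.Away f)).Etale := RingHom.etale_algebraMap.2 h2
  have h4 := RingHom.Etale.stableUnderComposition _ _ h1 h3
  have h5 : (algebraMap B (Localization.Away f)).comp
      (aeval (crd' χ ℓ lam c) : MvPolynomial (Fin (r + m)) k →ₐ[k] B).toRingHom =
      ((aeval (fun i => algebraMap B (Localization.Away f) (crd' χ ℓ lam c i)) :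
        MvPolynomial (Fin (r + m)) k →ₐ[k] Localization.Away f) :
        MvPolynomial (Fin (r + m)) k →+* Localization.Away f) := by
    have h6 : (IsScalarTower.toAlgHom k B (Localization.Away f)).comp
        (aeval (crd' χ ℓ lam c) : MvPolynomial (Fin (r + m)) k →ₐ[k] B) =
        (aeval (fun i => algebraMap B (Localization.Away f) (crd' χ ℓ lam c i)) :
        MvPolynomial (Fin (r + m)) k →ₐ[k] Localization.Away f) := by
      apply MvPolynomial.algHom_ext
      intro i
      simp
    rw [← h6]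
    rfl
  rw [← h5]
  exact h4

theorem TV.smooth (T : TV k B χ ℓ) [Algebra.FiniteType k B] {lam : Fin r → (Fin r → ℤ)}
    {E : ℕ} {n : Fin r → (Fin r → ℤ) →ₗ[ℤ] ℤ} (hE : (E : k) ≠ 0)
    (hsum : ∀ μ, (E : ℤ) • μ = ∑ i, n i μ • lam i)
    (hdual : ∀ i j, n i (lam j) = if i = j then (E : ℤ) else 0) :
    Algebra.Smooth k B := by
  have h1 := T.etale' hE hsum hdual (Pi.basisFun k (Fin m))
  let P := MvPolynomial (Fin (r + m)) k
  let _ : Algebra P B :=
    (aeval (crd' χ ℓ lam (Pi.basisFun k (Fin m))) : P →ₐ[k] B).toRingHom.toAlgebra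
  have hPB : ∀ q : P, algebraMap P B q = aeval (crd' χ ℓ lam (Pi.basisFun k (Fin m))) q :=
    fun q => rfl
  have _ : IsScalarTower k P B := IsScalarTower.of_algebraMap_eq fun r => by
    rw [hPB, MvPolynomial.algebraMap_eq, aeval_C]
  have _ : Algebra.Etale P B := h1
  have _ : Algebra.Smooth P B := inferInstance
  have _ : Algebra.Smooth k P :=
    { formallySmooth := inferInstanceAs (Algebra.FormallySmooth k (MvPolynomial _ k))
      finitePresentation := inferInstanceAs (Algebra.FinitePresentation k (MvPolynomial _ k)) }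
  exact Algebra.Smooth.comp k P B

end Pool.Agent.Y177.Tor
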