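import Pool.Agent.Y177.Tor.Filt
import Pool.Agent.Y177.Tor.Lat2
import Pool.Agent.Y177.Tor.TV

/-! Ideals of weighted monomials. -/

set_option autoImplicit false

universe u

namespace Pool.Agent.Y177.Tor

section mon

variable {S : Type u} [CommRing S] {n : ℕ} (x : Fin n → S) (w : Fin n → ℕ)

/-- The ideal of the monomials of weight at least `d`. -/
def mon (d : ℕ) : Ideal S :=
  Ideal.span {y | ∃ α : Fin n → ℕ, d ≤ ∑ i, α i * w i ∧ y = ∏ i, x i ^ α i}

lemma mon_zero : mon x w 0 = ⊤ := by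
  rw [Ideal.eq_top_iff_one]
  exact Ideal.subset_span ⟨fun _ => 0, by simp, by simp⟩

lemma mon_anti (a b : ℕ) (h : a ≤ b) : mon x w b ≤ mon x w a := by
  unfold mon
  rw [Ideal.span_le]
  rintro _ ⟨α, h1, rfl⟩
  exact Ideal.subset_span ⟨α, h.trans h1, rfl⟩

lemma mon_mul (a b : ℕ) : mon x w a * mon x w b ≤ mon x w (a + b) := by
  unfold mon
  rw [Ideal.span_mul_span', Ideal.span_le]
  rintro _ ⟨_, ⟨α, h1, rfl⟩, _, ⟨β, h2, rfl⟩, rfl⟩
  refine Ideal.subset_span ⟨fun i => α i + β i, ?_, ?_⟩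
  · simp only [add_mul, Finset.sum_add_distrib]
    exact add_le_add h1 h2
  · simp only [pow_add, Finset.prod_mul_distrib]

lemma mon_pow (i : Fin n) (e : ℕ) : x i ^ e ∈ mon x w (e * w i) := by
  classical
  refine Ideal.subset_span ⟨fun j => if j = i then e else 0, ?_, ?_⟩
  · rw [Finset.sum_eq_single i]
    · simp
    · intro j _ hj
      simp [hj]
    · simp
  · rw [Finset.prod_eq_single i]
    · simp
    · intro j _ hj
      simp [hj]
    · simp

lemma mon_single (i : Fin n) : x i ∈ mon x w (w i) := by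
  have h1 := mon_pow x w i 1
  rwa [pow_one, one_mul] at h1

end mon

section flag

variable {k : Type u} [Field k] {m : ℕ} {p : ℕ} (N : Module.End k (Fin m → k))

lemma exists_linFlag (hN : N ^ p = 0) : ∃ (c : Module.Basis (Fin m) k (Fin m → k))
    (w : Fin m → ℕ), (∀ i, c i ∈ LinearMap.range (N ^ w i)) ∧
      ∀ d, LinearMap.range (N ^ d) ≤ Submodule.span k (c '' {i | d ≤ w i}) := by
  have hanti : Antitone fun d : ℕ => LinearMap.range (N ^ d) := by
    refine antitone_nat_of_succ_le ?_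
    intro d v hv
    obtain ⟨u, rfl⟩ := hv
    exact ⟨N u, by rw [pow_succ]; rfl⟩
  obtain ⟨b0, w0, hb0, -, hsp0⟩ := exists_flag (fun d : ℕ => LinearMap.range (N ^ d)) hanti
    (by
      change LinearMap.range (N ^ 0) = ⊤
      rw [pow_zero, Module.End.one_eq_id, LinearMap.range_id]) p
    (by
      change LinearMap.range (N ^ p) = ⊥
      rw [hN, LinearMap.range_zero])
  have hfr : Module.finrank k (Fin m → k) = m := by simp
  let e : Fin (Module.finrank k (Fin m → k)) ≃ Fin m := finCongr hfr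
  refine ⟨b0.reindex e, fun i => w0 (e.symm i), ?_, ?_⟩
  · intro i
    rw [Module.Basis.reindex_apply]; exact hb0 _
  · intro d
    refine (hsp0 d).trans (Submodule.span_mono ?_)
    rintro _ ⟨i, hi, rfl⟩
    refine ⟨e i, ?_, ?_⟩
    · change d ≤ w0 (e.symm (e i))
      rwa [Equiv.symm_apply_apply]
    · rw [Module.Basis.reindex_apply, Equiv.symm_apply_apply]

end flag

lemma prod_pow_mem_Gf {B : Type u} [CommRing B] (G : B → ℕ → Prop) {ι : Type*} (t : Finset ι)
    (x : ι → B) (w : ι → ℕ) (hx : ∀ i, x i ∈ Gf G (w i)) (α : ι → ℕ) :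
    ∏ i ∈ t, x i ^ α i ∈ Gf G (∑ i ∈ t, α i * w i) := by
  classical
  induction t using Finset.induction_on with
  | empty => rw [Finset.sum_empty, Gf_zero]; trivial
  | insert i t hi ih =>
    rw [Finset.prod_insert hi, Finset.sum_insert hi]
    exact mul_mem_Gf G (pow_mem_Gf G (hx i) _) ih

end Pool.Agent.Y177.Tor
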