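import Pool.Agent.Y177.Tor.Cen
import Pool.Agent.Y177.Tor.Mon

/-! Coordinates adapted to the weighted centre. -/

set_option autoImplicit false
set_option linter.unusedSectionVars false

universe u

open MvPolynomial Pool.Agent.H920R2

namespace Pool.Agent.Y177.Tor

variable {k : Type u} [Field k] {B : Type u} [CommRing B] [Algebra k B] {r m : ℕ}
    {χ : (Fin r → ℤ) → B} {ℓ : (Fin m → k) →ₗ[k] B} {s : Module.End ℤ (Fin r → ℤ)}
    {N : Module.End k (Fin m → k)} {p : ℕ}
variable [hp : Fact p.Prime] [CharP k p] [CharP B p] (T : TV k B χ ℓ) (hs : s ^ p = 1)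
  (hN : N ^ p = 0) [Algebra.FiniteType k B]

include T hs hN in
/-- The coordinates adapted to the weighted centre. -/
theorem centre_coord (P : Ideal B) (hP : P.IsPrime) (hFP : Gf (Gp χ ℓ s N p) 1 ≤ P) :
    ∃ (f : B) (n : ℕ) (x : Fin n → B) (w : Fin n → ℕ), f ∉ P ∧
      ((aeval (fun i => algebraMap B (Localization.Away f) (x i)) :
        MvPolynomial (Fin n) k →ₐ[k] Localization.Away f) :
        MvPolynomial (Fin n) k →+* Localization.Away f).Etale ∧
      ∀ d, (Gf (Gp χ ℓ s N p) d).map (algebraMap B (Localization.Away f)) =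
        Ideal.span {y | ∃ α : Fin n → ℕ, d ≤ ∑ i, α i * w i ∧
          y = ∏ i, algebraMap B (Localization.Away f) (x i) ^ α i} := by
  classical
  have hp2 := hp.out.two_le
  obtain ⟨lam, w, E, n, hA⟩ := exists_adapted hs
  obtain ⟨c, w', hc1, hc2⟩ := exists_linFlag N hN
  have hfg : ∀ j, (KJ s p j).FG := fun j => IsNoetherian.noetherian _
  choose S hS using hfg
  have hE : (E : k) ≠ 0 := fun h => hA.hE ((CharP.cast_eq_zero_iff k p E).1 h)
  have hEP : (E : B) ∉ P := by
    intro h
    have h1 := (IsUnit.mk0 (E : k) hE).map (algebraMap k B)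
    rw [map_natCast] at h1
    exact hP.ne_top (P.eq_top_of_isUnit_mem h h1)
  let f : B := ∏ j ∈ Finset.range p, ∏ μ ∈ S j, ∑ i ∈ Finset.range E, χ μ ^ i
  have hf : f ∉ P := by
    intro h
    obtain ⟨j, hj, h1⟩ := hP.prod_mem_iff.1 h
    obtain ⟨μ, hμ, h2⟩ := hP.prod_mem_iff.1 h1
    have h3 : μ ∈ KJ s p 0 := by
      refine KJ_anti hs (Nat.zero_le j) ?_
      rw [← hS j]
      exact Submodule.subset_span hμ
    have h4 : χ μ - 1 ∈ P := hFP (gen_mem _ (gp_tor (j := 0) (by omega) h3))
    apply hEP
    have h5 : (∑ i ∈ Finset.range E, χ μ ^ i) - (E : B) ∈ P := by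
      have h6 : (∑ i ∈ Finset.range E, χ μ ^ i) - (E : B) =
          ∑ i ∈ Finset.range E, (χ μ ^ i - 1 ^ i) := by
        rw [Finset.sum_sub_distrib]; simp
      rw [h6]
      exact Ideal.sum_mem _ fun i _ => P.mem_of_dvd (sub_dvd_pow_sub_pow _ _ i) h4
    have h7 : (E : B) = (∑ i ∈ Finset.range E, χ μ ^ i) -
        ((∑ i ∈ Finset.range E, χ μ ^ i) - (E : B)) := by ring
    rw [h7]
    exact P.sub_mem h2 h5
  let wt : Fin (r + m) → ℕ := fun i => Sum.elim w w' (finSumFinEquiv.symm i)
  let A := Localization.Away f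
  let x : Fin (r + m) → A := fun i => algebraMap B A (crd' χ ℓ lam c i)
  have hxl : ∀ i : Fin r, x (finSumFinEquiv (Sum.inl i)) = algebraMap B A (χ (lam i) - 1) ∧
      wt (finSumFinEquiv (Sum.inl i)) = w i := by
    intro i
    constructor
    · change algebraMap B A (crd χ ℓ lam c (finSumFinEquiv.symm (finSumFinEquiv (Sum.inl i)))) = _
      rw [Equiv.symm_apply_apply]; rfl
    · change Sum.elim w w' (finSumFinEquiv.symm (finSumFinEquiv (Sum.inl i))) = _
      rw [Equiv.symm_apply_apply]; rfl
  have hxr : ∀ i : Fin m, x (finSumFinEquiv (Sum.inr i)) = algebraMap B A (ℓ (c i)) ∧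
      wt (finSumFinEquiv (Sum.inr i)) = w' i := by
    intro i
    constructor
    · change algebraMap B A (crd χ ℓ lam c (finSumFinEquiv.symm (finSumFinEquiv (Sum.inr i)))) = _
      rw [Equiv.symm_apply_apply]; rfl
    · change Sum.elim w w' (finSumFinEquiv.symm (finSumFinEquiv (Sum.inr i))) = _
      rw [Equiv.symm_apply_apply]; rfl
  refine ⟨f, r + m, crd' χ ℓ lam c, wt, hf, T.etale_loc hE hA.sum hA.dual c f, ?_⟩
  intro d
  apply le_antisymm
  · rw [Ideal.map_le_iff_le_comap]
    have key : ∀ d, Gf (Gp χ ℓ s N p) d ≤ (mon x wt d).comap (algebraMap B A) := by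
      refine Gf_le _ ?_ ?_ ?_ ?_
      · rw [mon_zero, Ideal.comap_top]
      · intro a b hab
        exact Ideal.comap_mono (mon_anti x wt a b hab)
      · intro a b
        refine (Ideal.le_comap_mul _).trans (Ideal.comap_mono (mon_mul x wt a b))
      · rintro b w0 (⟨j, μ, hj, hμ, rfl, rfl⟩ | ⟨v, hv, rfl⟩)
        · let J : Ideal B := (mon x wt (j + 1)).comap (algebraMap B A)
          have h1 : ∀ i, j + 1 ≤ w i → lam i ∈ Sg T J := by
            intro i hi
            rw [mem_Sg]
            change algebraMap B A (χ (lam i) - 1) ∈ mon x wt (j + 1)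
            rw [← (hxl i).1]
            refine mon_anti x wt _ _ ?_ (mon_single x wt _)
            rw [(hxl i).2]; exact hi
          have h2 : ∀ i, 1 ≤ w i → (p : ℤ) • lam i ∈ Sg T J := by
            intro i hi
            rw [mem_Sg, chi_p T]
            change algebraMap B A ((χ (lam i) - 1) ^ p) ∈ mon x wt (j + 1)
            rw [map_pow, ← (hxl i).1]
            refine mon_anti x wt _ _ ?_ (mon_pow x wt _ p)
            rw [(hxl i).2]
            calc j + 1 ≤ p * 1 := by omega
              _ ≤ p * w i := Nat.mul_le_mul_left _ hi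
          have h3 : ∀ μ ∈ KJ s p j, (E : ℤ) • μ ∈ Sg T J := by
            intro μ hμ
            rw [hA.sum]
            refine AddSubgroup.sum_mem _ fun i _ => ?_
            rcases Nat.eq_zero_or_pos (w i) with h4 | h4
            · rw [hA.zero μ (KJ_anti hs (Nat.zero_le j) hμ) i h4, zero_smul]
              exact AddSubgroup.zero_mem _
            · rcases Nat.lt_or_ge j (w i) with h5 | h5
              · exact AddSubgroup.zsmul_mem _ (h1 i h5) _
              · obtain ⟨n', hn'⟩ := hA.dvd j μ hμ i h5
                rw [hn', mul_comm, mul_smul]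
                exact AddSubgroup.zsmul_mem _ (h2 i h4) _
          have h4 : ∀ μ ∈ S j, μ ∈ Sg T J := by
            intro μ hμ
            have h5 : μ ∈ KJ s p j := by
              rw [← hS j]; exact Submodule.subset_span hμ
            have h6 := h3 μ h5
            rw [mem_Sg, chi_nsmul T] at h6
            rw [mem_Sg]
            change algebraMap B A (χ μ ^ E - 1) ∈ mon x wt (j + 1) at h6
            change algebraMap B A (χ μ - 1) ∈ mon x wt (j + 1)
            have h7 : χ μ ^ E - 1 = (∑ i ∈ Finset.range E, χ μ ^ i) * (χ μ - 1) :=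
              (geom_sum_mul _ _).symm
            have h8 : IsUnit (algebraMap B A (∑ i ∈ Finset.range E, χ μ ^ i)) := by
              have h9 : (∑ i ∈ Finset.range E, χ μ ^ i) ∣ f :=
                (Finset.dvd_prod_of_mem (fun μ => ∑ i ∈ Finset.range E, χ μ ^ i) hμ).trans
                  (Finset.dvd_prod_of_mem
                    (fun j => ∏ μ ∈ S j, ∑ i ∈ Finset.range E, χ μ ^ i)
                    (Finset.mem_range.2 (by omega)))
              exact isUnit_of_dvd_unit ((algebraMap B A).map_dvd h9)
                (IsLocalization.Away.algebraMap_isUnit f)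
            rw [h7, map_mul] at h6
            exact (Ideal.unit_mul_mem_iff_mem _ h8).1 h6
          have h5 : KJ s p j ≤ AddSubgroup.toIntSubmodule (Sg T J) := by
            rw [← hS j, Submodule.span_le]
            intro μ hμ
            exact h4 μ hμ
          exact h5 hμ
        · have h1 := hc2 w0 hv
          change algebraMap B A (ℓ v) ∈ mon x wt w0
          clear hv
          induction h1 using Submodule.span_induction with
          | mem v hv =>
            obtain ⟨i, hi, rfl⟩ := hv
            rw [← (hxr i).1]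
            refine mon_anti x wt _ _ ?_ (mon_single x wt _)
            rw [(hxr i).2]; exact hi
          | zero => rw [map_zero, map_zero]; exact Ideal.zero_mem _
          | add a b _ _ ha hb => rw [map_add, map_add]; exact Ideal.add_mem _ ha hb
          | smul a b _ hb =>
            rw [map_smul, Algebra.smul_def, map_mul]
            exact Ideal.mul_mem_left _ _ hb
    exact key d
  · rw [Ideal.span_le]
    rintro _ ⟨α, h1, rfl⟩
    have h2 : ∏ i, algebraMap B A (crd' χ ℓ lam c i) ^ α i =
        algebraMap B A (∏ i, crd' χ ℓ lam c i ^ α i) := by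
      rw [map_prod]
      simp only [map_pow]
    change ∏ i, algebraMap B A (crd' χ ℓ lam c i) ^ α i ∈ _
    rw [h2]
    refine Ideal.mem_map_of_mem _ (Gf_anti _ _ _ h1 (prod_pow_mem_Gf _ _ _ wt ?_ α))
    intro i
    obtain ⟨i, rfl⟩ := finSumFinEquiv.surjective i
    change crd χ ℓ lam c (finSumFinEquiv.symm (finSumFinEquiv i)) ∈
      Gf _ (Sum.elim w w' (finSumFinEquiv.symm (finSumFinEquiv i)))
    rw [Equiv.symm_apply_apply]
    rcases i with i | i
    · change χ (lam i) - 1 ∈ Gf _ (w i)
      rcases Nat.eq_zero_or_pos (w i) with h4 | h4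
      · rw [h4, Gf_zero]; trivial
      · have h5 := hA.mem i h4
        have h6 := hA.w_lt i
        have h7 := gen_mem _ (gp_tor (χ := χ) (ℓ := ℓ) (s := s) (N := N) (p := p)
          (j := w i - 1) (by omega) h5)
        have h8 : w i - 1 + 1 = w i := by omega
        rwa [h8] at h7
    · change ℓ (c i) ∈ Gf _ (w' i)
      exact gen_mem _ (gp_lin (hc1 i))

end Pool.Agent.Y177.Tor
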