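import Pool.Agent.H920R2.We3
import Pool.Agent.H920R2.Trans
import Pool.Agent.Y177.Tor.Filt
import Pool.Agent.Y177.Tor.Lat2
import Pool.Agent.Y177.Tor.TV

/-! The weighted centre of an automorphism of order `p` of a product of a torus and a vector
space. -/

set_option autoImplicit false
set_option linter.unusedSectionVars false

universe u

open MvPolynomial Pool.Agent.H920R2

namespace Pool.Agent.Y177.Tor

variable {k : Type u} [Field k] {B : Type u} [CommRing B] [Algebra k B] {r m : ℕ}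
    (χ : (Fin r → ℤ) → B) (ℓ : (Fin m → k) →ₗ[k] B) (s : Module.End ℤ (Fin r → ℤ))
    (N : Module.End k (Fin m → k)) (p : ℕ)

/-- The generators of the filtration. -/
def Gp (b : B) (w : ℕ) : Prop :=
  (∃ j μ, j + 2 ≤ p ∧ μ ∈ KJ s p j ∧ w = j + 1 ∧ b = χ μ - 1) ∨
    ∃ v, v ∈ LinearMap.range (N ^ w) ∧ b = ℓ v

section basic

variable {χ ℓ s N p}

lemma chi_nsmul (T : TV k B χ ℓ) (n : ℕ) (a : Fin r → ℤ) : χ ((n : ℤ) • a) = χ a ^ n := by
  induction n with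
  | zero => simp [T.zero]
  | succ n ih => rw [Nat.cast_succ, add_smul, one_smul, T.add, ih, pow_succ]

lemma chi_p (T : TV k B χ ℓ) [Fact p.Prime] [CharP B p] (a : Fin r → ℤ) :
    χ ((p : ℤ) • a) - 1 = (χ a - 1) ^ p := by
  rw [chi_nsmul T, sub_pow_char, one_pow]

/-- The characters which are `1` modulo an ideal. -/
def Sg (T : TV k B χ ℓ) (J : Ideal B) : AddSubgroup (Fin r → ℤ) where
  carrier := {μ | χ μ - 1 ∈ J}
  zero_mem' := by simp [T.zero]
  add_mem' := by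
    intro a b ha hb
    have h1 : χ (a + b) - 1 = χ a * (χ b - 1) + (χ a - 1) := by rw [T.add]; ring
    change χ (a + b) - 1 ∈ J
    rw [h1]
    exact J.add_mem (J.mul_mem_left _ hb) ha
  neg_mem' := by
    intro a ha
    have h1 : χ (-a) - 1 = -(χ (-a) * (χ a - 1)) := by
      have := T.mul_neg a
      linear_combination this
    change χ (-a) - 1 ∈ J
    rw [h1]
    exact J.neg_mem (J.mul_mem_left _ ha)

lemma mem_Sg {T : TV k B χ ℓ} {J : Ideal B} {μ : Fin r → ℤ} : μ ∈ Sg T J ↔ χ μ - 1 ∈ J :=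
  Iff.rfl

lemma range_pow_anti (N : Module.End k (Fin m → k)) :
    Antitone fun d : ℕ => LinearMap.range (N ^ d) := by
  refine antitone_nat_of_succ_le ?_
  intro d v hv
  obtain ⟨u, rfl⟩ := hv
  exact ⟨N u, by rw [pow_succ]; rfl⟩

lemma gp_tor {j : ℕ} (hj : j + 2 ≤ p) {μ : Fin r → ℤ} (hμ : μ ∈ KJ s p j) :
    Gp χ ℓ s N p (χ μ - 1) (j + 1) := Or.inl ⟨j, μ, hj, hμ, rfl, rfl⟩

lemma gp_lin {w : ℕ} {v : Fin m → k} (hv : v ∈ LinearMap.range (N ^ w)) :
    Gp χ ℓ s N p (ℓ v) w := Or.inr ⟨v, hv, rfl⟩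

end basic

section main

variable {χ ℓ s N p}
variable [hp : Fact p.Prime] [CharP k p] [CharP B p] (T : TV k B χ ℓ) (hs : s ^ p = 1)
  (hN : N ^ p = 0)

include T hs in
lemma tor_mem_one (μ : Fin r → ℤ) : χ ((s - 1) μ) - 1 ∈ Gf (Gp χ ℓ s N p) 1 := by
  have hp2 := hp.out.two_le
  exact gen_mem _ (gp_tor (j := 0) (by omega) (pi_mem_zero hs μ))

section sig

variable (σ : B ≃ₐ[k] B) (hχ : ∀ a, σ (χ a) = χ (s a)) (hℓ : ∀ v, σ (ℓ v) = ℓ v + ℓ (N v))

include T hχ in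
lemma sig_chi (a : Fin r → ℤ) : σ (χ a) - χ a = χ a * (χ ((s - 1) a) - 1) := by
  have h1 : s a = a + (s - 1) a := by
    rw [LinearMap.sub_apply, Module.End.one_apply]; abel
  rw [hχ, h1, T.add]
  ring

include T hs hχ hℓ in
lemma sig_one (b : B) : σ b - b ∈ Gf (Gp χ ℓ s N p) 1 := by
  have h1 : (Ideal.Quotient.mkₐ k (Gf (Gp χ ℓ s N p) 1)).comp (σ : B →ₐ[k] B) =
      Ideal.Quotient.mkₐ k (Gf (Gp χ ℓ s N p) 1) := by
    refine T.uniq _ _ _ ?_ ?_
    · intro a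
      change Ideal.Quotient.mk _ (σ (χ a)) = Ideal.Quotient.mk _ (χ a)
      rw [Ideal.Quotient.eq, sig_chi T σ hχ]
      exact Ideal.mul_mem_left _ _ (tor_mem_one T hs a)
    · intro v
      change Ideal.Quotient.mk _ (σ (ℓ v)) = Ideal.Quotient.mk _ (ℓ v)
      rw [Ideal.Quotient.eq, hℓ, add_sub_cancel_left]
      exact gen_mem _ (gp_lin ⟨v, by rw [pow_one]⟩)
  have h2 := congrArg (fun φ : B →ₐ[k] B ⧸ Gf (Gp χ ℓ s N p) 1 => φ b) h1
  exact Ideal.Quotient.eq.1 h2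

include T hs hχ hℓ in
lemma sig_gen (b : B) (w : ℕ) (h : Gp χ ℓ s N p b w) : σ b - b ∈ Gf (Gp χ ℓ s N p) (w + 1) := by
  rcases h with ⟨j, μ, hj, hμ, rfl, rfl⟩ | ⟨v, hv, rfl⟩
  · have h1 : σ (χ μ - 1) - (χ μ - 1) = χ μ * (χ ((s - 1) μ) - 1) := by
      rw [map_sub, map_one, ← sig_chi T σ hχ]; ring
    rw [h1]
    refine Ideal.mul_mem_left _ _ ?_
    rcases Nat.lt_or_ge (j + 2) p with h2 | h2
    · exact gen_mem _ (gp_tor (j := j + 1) (by omega) (pi_mem_succ hμ))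
    · have h3 : j = p - 2 := by omega
      rw [h3] at hμ
      obtain ⟨ν, h4, h5⟩ := exists_p_of_pi hs hμ
      rw [h5, chi_p T]
      have h6 : χ ν - 1 ∈ Gf (Gp χ ℓ s N p) 1 := by
        have hp2 := hp.out.two_le
        exact gen_mem _ (gp_tor (j := 0) (by omega) h4)
      have h7 := pow_mem_Gf _ h6 p
      have h8 : p * 1 = j + 1 + 1 := by omega
      rwa [h8] at h7
  · rw [hℓ, add_sub_cancel_left]
    obtain ⟨u, rfl⟩ := hv
    exact gen_mem _ (gp_lin ⟨u, by rw [pow_succ']; rfl⟩)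

include T hs hχ hℓ in
lemma sig_fix (P : Ideal B) (hP : P.IsPrime) (h : ∀ a, σ a - a ∈ P) :
    Gf (Gp χ ℓ s N p) 1 ≤ P := by
  have h1 : Gf (Gp χ ℓ s N p) 1 ≤ (fun d : ℕ => if d = 0 then (⊤ : Ideal B) else P) 1 := by
    refine Gf_le (W := fun d : ℕ => if d = 0 then (⊤ : Ideal B) else P) _ (if_pos rfl)
      ?_ ?_ ?_ 1
    · intro a b hab
      split_ifs with h2 h3 h3
      · exact le_rfl
      · omega
      · exact le_top
      · exact le_rfl
    · intro a b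
      by_cases ha : a = 0
      · subst ha
        rw [if_pos rfl, zero_add]
        refine Ideal.mul_le.2 fun x _ y hy => Ideal.mul_mem_left _ _ hy
      · rw [if_neg ha, if_neg (show ¬ a + b = 0 by omega)]
        refine Ideal.mul_le.2 fun x hx y _ => Ideal.mul_mem_right _ _ hx
    · rintro b w (⟨j, μ, hj, hμ, rfl, rfl⟩ | ⟨v, hv, rfl⟩)
      · rw [if_neg (by omega)]
        have h2 : μ ∈ KJ s p 0 := KJ_anti hs (Nat.zero_le j) hμ
        obtain ⟨ν, -, h3⟩ := exists_pi_of_p h2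
        have h4 : (χ μ - 1) ^ p ∈ P := by
          rw [← chi_p T, h3]
          have h5 : χ ((s - 1) ν) - 1 = χ (-ν) * (σ (χ ν) - χ ν) := by
            rw [sig_chi T σ hχ, ← mul_assoc, mul_comm (χ (-ν)), T.mul_neg, one_mul]
          rw [h5]
          exact P.mul_mem_left _ (h _)
        exact hP.mem_of_pow_mem _ h4
      · split_ifs with h2
        · trivial
        · obtain ⟨w', rfl⟩ := Nat.exists_eq_succ_of_ne_zero h2
          obtain ⟨u, rfl⟩ := hv
          have h3 := h (ℓ ((N ^ w') u))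
          rw [hℓ, add_sub_cancel_left] at h3
          rw [pow_succ']
          exact h3
  simpa using h1

include T hs hχ hℓ in
lemma sig_lead (d : ℕ) (hd : 1 ≤ d) (a : B) (ha : a ∈ Gf (Gp χ ℓ s N p) d) :
    ∃ M : ℕ, a ^ M ∈ ldI (Gp χ ℓ s N p) σ (M * d) := by
  refine lead_of_gens _ σ ?_ d hd a ha
  rintro b w (⟨j, μ, hj, hμ, rfl, rfl⟩ | ⟨v, hv, rfl⟩) hw
  · have key : ∀ ν : Fin r → ℤ, χ ((s - 1) ν) - 1 = χ (-ν) * (σ (χ ν - 1) - (χ ν - 1)) := by
      intro ν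
      have h5 : σ (χ ν - 1) - (χ ν - 1) = χ ν * (χ ((s - 1) ν) - 1) := by
        rw [map_sub, map_one, ← sig_chi T σ hχ]; ring
      rw [h5, ← mul_assoc, mul_comm (χ (-ν)), T.mul_neg, one_mul]
    cases j with
    | zero =>
      obtain ⟨ν, h2, h3⟩ := exists_pi_of_p hμ
      refine ⟨p, ?_⟩
      rw [← chi_p T, h3, key]
      have hp2 := hp.out.two_le
      refine ldI_gen _ σ (e := p - 2 + 1) (gen_mem _ (gp_tor (by omega) h2)) ?_
      have h4 : p * (0 + 1) - (p - 2 + 1 + 1) = 0 := by omega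
      rw [h4, Gf_zero]
      trivial
    | succ j =>
      obtain ⟨ν, h2, h3⟩ := exists_of_succ hμ
      refine ⟨1, ?_⟩
      rw [pow_one, h3, key, one_mul]
      refine ldI_gen _ σ (e := j + 1) (gen_mem _ (gp_tor (by omega) h2)) ?_
      rw [Nat.sub_self, Gf_zero]
      trivial
  · obtain ⟨w', rfl⟩ := Nat.exists_eq_succ_of_ne_zero (show w ≠ 0 by omega)
    obtain ⟨u, rfl⟩ := hv
    refine ⟨1, ?_⟩
    have h3 : ℓ ((N ^ (w' + 1)) u) = 1 * (σ (ℓ ((N ^ w') u)) - ℓ ((N ^ w') u)) := by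
      rw [hℓ, add_sub_cancel_left, pow_succ', one_mul]
      rfl
    rw [pow_one, one_mul, h3]
    refine ldI_gen _ σ (e := w') (gen_mem _ (gp_lin ⟨u, rfl⟩)) ?_
    rw [Nat.succ_eq_add_one, Nat.sub_self, Gf_zero]
    trivial

end sig

end main

end Pool.Agent.Y177.Tor
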