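import Mathlib

/-! Bases adapted to filtrations; lattices with an automorphism of order `p`. -/

set_option autoImplicit false

universe u

namespace Pool.Agent.Y177.Tor

section flag

variable {F V : Type*} [Field F] [AddCommGroup V] [Module F V]

lemma exists_chain (P : ℕ) : ∀ W : ℕ → Submodule F V, Antitone W → W P = ⊥ →
    ∃ S : ℕ → Set V, Antitone S ∧ (∀ d, P ≤ d → S d = ∅) ∧
      (∀ d, LinearIndepOn F id (S d)) ∧ ∀ d, S d ⊆ W d ∧ W d ≤ Submodule.span F (S d) := by
  induction P with
  | zero =>
    intro W hW h0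
    refine ⟨fun _ => ∅, fun a b _ => le_rfl, fun _ _ => rfl, fun d => linearIndepOn_empty _ _,
      fun d => ⟨Set.empty_subset _, ?_⟩⟩
    have h1 : W d ≤ ⊥ := h0 ▸ hW (Nat.zero_le d)
    exact h1.trans bot_le
  | succ P ih =>
    intro W hW h0
    obtain ⟨S', h1, h2, h3, h4⟩ := ih (fun d => W (d + 1)) (fun a b h => hW (by omega)) h0
    obtain ⟨S0, h5, h6, h7, h8⟩ := exists_linearIndepOn_id_extension (h3 0)
      ((h4 0).1.trans (hW (Nat.zero_le 1)))
    refine ⟨fun d => Nat.casesOn d S0 S', ?_, ?_, ?_, ?_⟩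
    · refine antitone_nat_of_succ_le ?_
      intro d
      cases d with
      | zero => exact h6
      | succ d => exact h1 (Nat.le_succ d)
    · intro d hd
      cases d with
      | zero => omega
      | succ d => exact h2 d (by omega)
    · intro d
      cases d with
      | zero => exact h8
      | succ d => exact h3 d
    · intro d
      cases d with
      | zero => exact ⟨h5, h7⟩
      | succ d => exact h4 d

/-- A basis adapted to a finite filtration. -/
theorem exists_flag [FiniteDimensional F V] (W : ℕ → Submodule F V) (hW : Antitone W)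
    (h0 : W 0 = ⊤) (P : ℕ) (hP : W P = ⊥) :
    ∃ (b : Module.Basis (Fin (Module.finrank F V)) F V)
      (w : Fin (Module.finrank F V) → ℕ), (∀ i, b i ∈ W (w i)) ∧ (∀ i, w i < P) ∧
        ∀ d, W d ≤ Submodule.span F (b '' {i | d ≤ w i}) := by
  classical
  obtain ⟨S, h1, h2, h3, h4⟩ := exists_chain P W hW hP
  have hsp : ⊤ ≤ Submodule.span F (Set.range (fun x : S 0 => (x : V))) := by
    rw [Subtype.range_coe, ← h0]
    exact (h4 0).2
  have hli : LinearIndependent F (fun x : S 0 => (x : V)) := h3 0
  let b0 : Module.Basis (S 0) F V := Module.Basis.mk hli hsp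
  have hb0 : ∀ x : S 0, b0 x = x := fun x => by
    simp [b0]
  have : Finite (S 0) := Module.Finite.finite_basis b0
  have : Fintype (S 0) := Fintype.ofFinite _
  have hcard : Fintype.card (S 0) = Module.finrank F V := (Module.finrank_eq_card_basis b0).symm
  let e : S 0 ≃ Fin (Module.finrank F V) := Fintype.equivFinOfCardEq hcard
  let w0 : S 0 → ℕ := fun x => Nat.findGreatest (fun d => (x : V) ∈ S d) P
  have hw0 : ∀ (x : S 0) (d : ℕ), (x : V) ∈ S d → d ≤ w0 x := by
    intro x d hd
    have hdP : d ≤ P := by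
      by_contra hcon
      push Not at hcon
      rw [h2 d hcon.le] at hd
      exact hd
    exact Nat.le_findGreatest hdP hd
  have hw1 : ∀ x : S 0, (x : V) ∈ S (w0 x) := fun x =>
    Nat.findGreatest_spec (P := fun d => (x : V) ∈ S d) (Nat.zero_le P) x.2
  refine ⟨b0.reindex e, fun i => w0 (e.symm i), ?_, ?_, ?_⟩
  · intro i
    rw [Module.Basis.reindex_apply, hb0]
    exact (h4 _).1 (hw1 _)
  · intro i
    by_contra hcon
    push Not at hcon
    have h5 := hw1 (e.symm i)
    rw [h2 _ hcon] at h5
    exact h5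
  · intro d
    refine (h4 d).2.trans (Submodule.span_mono ?_)
    intro x hx
    have hx0 : x ∈ S 0 := h1 (Nat.zero_le d) hx
    refine ⟨e ⟨x, hx0⟩, ?_, ?_⟩
    · change d ≤ w0 (e.symm (e ⟨x, hx0⟩))
      rw [Equiv.symm_apply_apply]
      exact hw0 ⟨x, hx0⟩ d hx
    · rw [Module.Basis.reindex_apply, Equiv.symm_apply_apply, hb0]

end flag

end Pool.Agent.Y177.Tor
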