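import Pool.Agent.Y177.Tor.Coord

/-! Quotients of products of a torus and a vector space by automorphisms of order `p`. -/

set_option autoImplicit false
set_option linter.unusedSectionVars false

universe u

open MvPolynomial Pool.Agent.H920R2 AlgebraicGeometry CategoryTheory

namespace Pool.Agent.Y177.Tor

variable {k : Type u} [Field k] {B : Type u} [CommRing B] [IsDomain B] [Algebra k B] {r m : ℕ}
    {χ : (Fin r → ℤ) → B} {ℓ : (Fin m → k) →ₗ[k] B} {p : ℕ}
variable [hp : Fact p.Prime] [CharP k p] [Algebra.FiniteType k B]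

theorem hasResolution_lin (T : TV k B χ ℓ) (σ : B ≃ₐ[k] B) (hσ : ∀ b, σ^[p] b = b)
    (s : Module.End ℤ (Fin r → ℤ)) (hs : s ^ p = 1) (hχ : ∀ a, σ (χ a) = χ (s a))
    (N : Module.End k (Fin m → k)) (hN : N ^ p = 0) (hℓ : ∀ v, σ (ℓ v) = ℓ v + ℓ (N v)) :
    HasResolution (X := Spec (CommRingCat.of (fixedAlg σ)))
      (Spec.map (CommRingCat.ofHom (algebraMap k (fixedAlg σ)))) := by
  have _ : CharP B p := charP_of_injective_algebraMap (algebraMap k B).injective p
  have hsm : Algebra.Smooth k B := by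
    obtain ⟨lam, w, E, n, hA⟩ := exists_adapted hs
    have hE : (E : k) ≠ 0 := fun h => hA.hE ((CharP.cast_eq_zero_iff k p E).1 h)
    exact T.smooth hE hA.sum hA.dual
  by_cases h1 : ∀ b, σ b = b
  · have h2 : fixedAlg σ = ⊤ := by
      rw [eq_top_iff]
      intro b _
      exact mem_fixedAlg.2 (h1 b)
    rw [h2]
    exact hasResolution_congr (Subalgebra.topEquiv (R := k) (A := B)).symm hasResolution_of_smooth
  · push Not at h1
    obtain ⟨b, hb⟩ := h1
    have hF : RegularWeightedCentre k (Gf (Gp χ ℓ s N p)) :=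
      { zero := Gf_zero _
        anti := Gf_anti _
        mul := Gf_mul _
        coord := fun P hP hFP => centre_coord T hs hN P hP hFP }
    refine hasResolution_centre hp.out (CharP.cast_eq_zero k p) hsm σ hσ hF ?_ one_pos
      (sigma_raise _ σ (sig_one T hs σ hχ hℓ) (sig_gen T hs σ hχ hℓ))
      (sig_fix T hs σ hχ hℓ) (sig_lead T hs σ hχ hℓ)
    intro h3
    have h4 := sig_one T hs σ hχ hℓ b
    rw [h3, Submodule.mem_bot, sub_eq_zero] at h4
    exact hb h4

/-- The case without fixed points. -/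
theorem hasResolution_free (hsm : Algebra.Smooth k B) (σ : B ≃ₐ[k] B) (hσ : ∀ b, σ^[p] b = b)
    (hfree : ∀ P : Ideal B, P.IsPrime → ∃ a, σ a - a ∉ P) :
    HasResolution (X := Spec (CommRingCat.of (fixedAlg σ)))
      (Spec.map (CommRingCat.ofHom (algebraMap k (fixedAlg σ)))) := by
  have hF : RegularWeightedCentre k (fun _ => (⊤ : Ideal B)) :=
    { zero := rfl
      anti := fun _ _ _ => le_rfl
      mul := fun _ _ => le_top
      coord := fun P hP hFP => absurd (top_le_iff.1 hFP) hP.ne_top }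
  refine hasResolution_centre hp.out (CharP.cast_eq_zero k p) hsm σ hσ hF ?_ one_pos
    (fun _ _ _ => trivial) ?_ ?_
  · exact top_ne_bot
  · intro P hP h
    obtain ⟨a, ha⟩ := hfree P hP
    exact absurd (h a) ha
  · intro d _ a _
    exact ⟨0, (le_sup_left : (⊤ : Ideal B) ≤ _) trivial⟩

end Pool.Agent.Y177.Tor
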