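import Pool.Agent.Y177.Tor.Main

/-! Normal forms of automorphisms of products of a torus and a vector space. -/

set_option autoImplicit false
set_option linter.unusedSectionVars false

universe u

open MvPolynomial Pool.Agent.H920R2 AlgebraicGeometry CategoryTheory

namespace Pool.Agent.Y177.Tor

section twist

variable {k : Type u} [Field k] {B : Type u} [CommRing B] [Algebra k B] {r m : ℕ}
    {χ : (Fin r → ℤ) → B} {ℓ : (Fin m → k) →ₗ[k] B}

/-- Change of the origin. -/
theorem TV.twist (T : TV k B χ ℓ) (ψ : (Fin r → ℤ) → k) (h0 : ψ 0 = 1)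
    (ha : ∀ a b, ψ (a + b) = ψ a * ψ b) (φ : (Fin m → k) →ₗ[k] k) :
    TV k B (fun a => algebraMap k B (ψ a) * χ a) (ℓ + (Algebra.linearMap k B).comp φ) where
  zero := by rw [h0, T.zero, map_one, one_mul]
  add a b := by rw [ha, T.add, map_mul]; ring
  uniq C _ _ g g' h1 h2 := by
    refine T.uniq C g g' ?_ ?_
    · intro a
      have h3 := h1 a
      simp only [map_mul, AlgHom.commutes] at h3
      have h4 : ψ a ≠ 0 := by
        intro h5
        have h6 : ψ a * ψ (-a) = 1 := by rw [← ha, add_neg_cancel, h0]
        rw [h5, zero_mul] at h6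
        exact zero_ne_one h6
      have h5 : IsUnit (algebraMap k C (ψ a)) := (IsUnit.mk0 _ h4).map _
      exact h5.mul_left_cancel h3
    · intro v
      have h3 := h2 v
      simp only [LinearMap.add_apply, LinearMap.comp_apply, Algebra.linearMap_apply, map_add,
        AlgHom.commutes] at h3
      exact add_right_cancel h3
  ex C _ _ Y h hY0 hYa := by
    have hψ : ∀ a, ψ a * ψ (-a) = 1 := fun a => by rw [← ha, add_neg_cancel, h0]
    obtain ⟨g, hg1, hg2⟩ := T.ex C (fun a => algebraMap k C (ψ (-a)) * Y a)
      (h - (Algebra.linearMap k C).comp φ)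
      (by rw [neg_zero, h0, hY0, map_one, one_mul])
      (by intro a b; rw [neg_add, ha, hYa, map_mul]; ring)
    refine ⟨g, ?_, ?_⟩
    · intro a
      rw [map_mul, AlgHom.commutes, hg1, ← mul_assoc, ← map_mul, hψ, map_one, one_mul]
    · intro v
      rw [LinearMap.add_apply, map_add, hg2]
      simp

/-- The characters are linearly independent. -/
lemma TV.chi_inj (T : TV k B χ ℓ) {a b : Fin r → ℤ} {c c' : k} (hc : c ≠ 0)
    (h : algebraMap k B c * χ a = algebraMap k B c' * χ b) : a = b ∧ c = c' := by
  let C := AddMonoidAlgebra k (Fin r → ℤ)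
  obtain ⟨g, hg, -⟩ := T.ex C (fun a => AddMonoidAlgebra.single a 1) 0
    (by rfl) (by
      intro a b
      rw [AddMonoidAlgebra.single_mul_single, one_mul])
  have h1 := congrArg g h
  rw [map_mul, map_mul, AlgHom.commutes, AlgHom.commutes, hg, hg, ← Algebra.smul_def,
    ← Algebra.smul_def] at h1
  have h2 : (AddMonoidAlgebra.single a c : C) = AddMonoidAlgebra.single b c' := by
    rw [AddMonoidAlgebra.smul_single, AddMonoidAlgebra.smul_single, smul_eq_mul, smul_eq_mul,
      mul_one, mul_one] at h1
    exact h1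
  by_cases hab : a = b
  · refine ⟨hab, ?_⟩
    subst hab
    have h3 := congrArg (fun f : C => f.coeff a) h2
    simpa using h3
  · exfalso
    have h3 := congrArg (fun f : C => f.coeff a) h2
    simp only [AddMonoidAlgebra.coeff_single, Finsupp.single_eq_same] at h3
    rw [Finsupp.single_eq_of_ne hab] at h3
    exact hc h3

/-- The linear forms and `1` are linearly independent. -/
lemma TV.ell_inj (T : TV k B χ ℓ) {u v : Fin m → k} {c c' : k}
    (h : ℓ u + algebraMap k B c = ℓ v + algebraMap k B c') : u = v ∧ c = c' := by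
  have h1 : ∀ f : (Fin m → k) →ₗ[k] k, f u + c = f v + c' := by
    intro f
    obtain ⟨g, -, hg⟩ := T.ex k (fun _ => 1) f rfl (fun _ _ => (mul_one 1).symm)
    have h2 := congrArg g h
    rw [map_add, map_add, AlgHom.commutes, AlgHom.commutes, hg, hg] at h2
    exact h2
  have h2 : c = c' := by simpa using h1 0
  refine ⟨?_, h2⟩
  subst h2
  funext i
  have h3 := h1 (LinearMap.proj i)
  exact add_right_cancel h3

end twist

end Pool.Agent.Y177.Tor
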